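import Pool.Agent.Lib.MP_c5a51c_co.Defs

/-!
The standard realization of an abstract simplicial complex on `Fin n` by faces of the standard
simplex of `ℝ^n`.
-/

set_option autoImplicit false

namespace Pool.Agent.LinEmb

open Set Finset

variable {n : ℕ}

/-- the face of the standard simplex spanned by the coordinates in `s` -/
def cell (s : Finset (Fin n)) : Set (E n) :=
  {x | (∀ i, 0 ≤ x i) ∧ ∑ i, x i = 1 ∧ ∀ i, i ∉ s → x i = 0}

/-- the vertices of the standard simplex -/
noncomputable def vtx (i : Fin n) : E n := EuclideanSpace.single i (1 : ℝ)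

theorem vtx_apply (i j : Fin n) : vtx i j = if j = i then 1 else 0 := by
  simp [vtx]

theorem vtx_mem {s : Finset (Fin n)} {i : Fin n} (hi : i ∈ s) : vtx i ∈ cell s := by
  refine ⟨fun j => ?_, ?_, fun j hj => ?_⟩
  · rw [vtx_apply]; split_ifs <;> norm_num
  · simp [vtx_apply]
  · rw [vtx_apply, if_neg]
    rintro rfl
    exact hj hi

theorem cell_empty : cell (∅ : Finset (Fin n)) = ∅ := by
  ext x
  simp only [cell, Set.mem_ofPred_eq, Set.mem_empty_iff_false, iff_false]
  rintro ⟨-, h1, h2⟩
  have : ∑ i, x i = 0 := Finset.sum_eq_zero fun i _ => h2 i (by simp)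
  rw [this] at h1
  exact absurd h1 (by norm_num)

theorem convex_cell (s : Finset (Fin n)) : Convex ℝ (cell s) := by
  rintro x ⟨hx1, hx2, hx3⟩ y ⟨hy1, hy2, hy3⟩ a b ha hb hab
  refine ⟨fun i => ?_, ?_, fun i hi => ?_⟩
  · have := mul_nonneg ha (hx1 i)
    have := mul_nonneg hb (hy1 i)
    simp only [PiLp.add_apply, PiLp.smul_apply, smul_eq_mul]
    positivity
  · simp only [PiLp.add_apply, PiLp.smul_apply, smul_eq_mul]
    rw [Finset.sum_add_distrib, ← Finset.mul_sum, ← Finset.mul_sum, hx2, hy2, mul_one, mul_one,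
      hab]
  · simp only [PiLp.add_apply, PiLp.smul_apply, smul_eq_mul, hx3 i hi, hy3 i hi, mul_zero,
      add_zero]

theorem eq_sum_vtx (x : E n) : x = ∑ i, x i • vtx i := by
  ext j
  have : (∑ i, x i • vtx i) j = ∑ i, (x i • vtx i) j := by
    simp
  rw [this]
  simp [vtx_apply]

theorem eq_sum_vtx_of_mem {s : Finset (Fin n)} {x : E n} (hx : x ∈ cell s) :
    x = ∑ i ∈ s, x i • vtx i := by
  conv_lhs => rw [eq_sum_vtx x]
  symm
  apply Finset.sum_subset (Finset.subset_univ s)
  intro i _ hi
  rw [hx.2.2 i hi, zero_smul]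

theorem cell_eq_convexHull (s : Finset (Fin n)) :
    cell s = convexHull ℝ ((s.image vtx : Finset (E n)) : Set (E n)) := by
  apply Set.Subset.antisymm
  · intro x hx
    rw [eq_sum_vtx_of_mem hx]
    apply (convex_convexHull ℝ _).sum_mem
    · intro i _
      exact hx.1 i
    · rw [← hx.2.1]
      apply Finset.sum_subset (Finset.subset_univ s)
      intro i _ hi
      exact hx.2.2 i hi
    · intro i hi
      apply subset_convexHull
      exact Finset.mem_coe.2 (Finset.mem_image_of_mem _ hi)
  · apply convexHull_min _ (convex_cell s)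
    intro x hx
    rw [Finset.mem_coe, Finset.mem_image] at hx
    obtain ⟨i, hi, rfl⟩ := hx
    exact vtx_mem hi

theorem cell_mono {s t : Finset (Fin n)} (h : s ⊆ t) : cell s ⊆ cell t :=
  fun _ hx => ⟨hx.1, hx.2.1, fun i hi => hx.2.2 i fun h' => hi (h h')⟩

theorem cell_subset_iff {s t : Finset (Fin n)} : cell s ⊆ cell t ↔ s ⊆ t := by
  constructor
  · intro h i hi
    by_contra hit
    have := (h (vtx_mem hi)).2.2 i hit
    rw [vtx_apply, if_pos rfl] at this
    exact absurd this (by norm_num)
  · exact cell_mono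

theorem cell_injective : Function.Injective (cell : Finset (Fin n) → Set (E n)) := by
  intro s t h
  exact Finset.Subset.antisymm (cell_subset_iff.1 h.le) (cell_subset_iff.1 h.ge)

theorem cell_inter (s t : Finset (Fin n)) : cell s ∩ cell t = cell (s ∩ t) := by
  apply Set.Subset.antisymm
  · rintro x ⟨h1, h2⟩
    refine ⟨h1.1, h1.2.1, fun i hi => ?_⟩
    by_cases h : i ∈ s
    · exact h2.2.2 i fun h' => hi (Finset.mem_inter.2 ⟨h, h'⟩)
    · exact h1.2.2 i h
  · exact Set.subset_inter (cell_mono Finset.inter_subset_left)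
      (cell_mono Finset.inter_subset_right)

theorem isFace_cell {s t : Finset (Fin n)} (h : s ⊆ t) : IsFace (cell s) (cell t) := by
  right
  refine ⟨-∑ i ∈ univ \ s, (LinearMap.proj i ∘ₗ (WithLp.linearEquiv 2 ℝ (Fin n → ℝ)).toLinearMap),
    0, ?_, ?_⟩
  · intro x hx
    simp only [LinearMap.neg_apply, LinearMap.sum_apply, LinearMap.comp_apply]
    rw [neg_nonpos]
    apply Finset.sum_nonneg
    intro i _
    exact hx.1 i
  · ext x
    constructor
    · intro hx
      refine ⟨cell_mono h hx, ?_⟩
      simp only [LinearMap.neg_apply, LinearMap.sum_apply, LinearMap.comp_apply]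
      rw [neg_eq_zero]
      apply Finset.sum_eq_zero
      intro i hi
      rw [Finset.mem_sdiff] at hi
      exact hx.2.2 i hi.2
    · rintro ⟨hx, hx0⟩
      refine ⟨hx.1, hx.2.1, ?_⟩
      simp only [LinearMap.neg_apply, LinearMap.sum_apply, LinearMap.comp_apply] at hx0
      rw [neg_eq_zero] at hx0
      change ∑ i ∈ univ \ s, x i = 0 at hx0
      rw [Finset.sum_eq_zero_iff_of_nonneg (fun i _ => hx.1 i)] at hx0
      intro i hi
      exact hx0 i (by simp [hi])

theorem exists_of_isFace {F : Set (E n)} {s : Finset (Fin n)} (hF : IsFace F (cell s)) :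
    ∃ t ⊆ s, F = cell t := by
  classical
  rcases hF with rfl | ⟨l, c, hl, rfl⟩
  · exact ⟨∅, Finset.empty_subset _, cell_empty.symm⟩
  · refine ⟨s.filter (fun i => l (vtx i) = c), Finset.filter_subset _ _, ?_⟩
    ext x
    have key : x ∈ cell s → c - l x = ∑ i ∈ s, x i * (c - l (vtx i)) := by
      intro hx
      have h1 : l x = ∑ i ∈ s, x i * l (vtx i) := by
        conv_lhs => rw [eq_sum_vtx_of_mem hx]
        rw [map_sum]
        simp
      have h2 : ∑ i ∈ s, x i = 1 := by
        rw [← hx.2.1]
        apply Finset.sum_subset (Finset.subset_univ s)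
        intro i _ hi
        exact hx.2.2 i hi
      rw [h1]
      calc c - ∑ i ∈ s, x i * l (vtx i) = (∑ i ∈ s, x i) * c - ∑ i ∈ s, x i * l (vtx i) := by
            rw [h2, one_mul]
        _ = ∑ i ∈ s, x i * (c - l (vtx i)) := by
            rw [Finset.sum_mul, ← Finset.sum_sub_distrib]
            exact Finset.sum_congr rfl fun i _ => by ring
    have hnn : x ∈ cell s → ∀ i ∈ s, 0 ≤ x i * (c - l (vtx i)) := fun hx i hi =>
      mul_nonneg (hx.1 i) (sub_nonneg.2 (hl _ (vtx_mem hi)))
    constructor
    · rintro ⟨hx, hxc⟩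
      have h0 := key hx
      rw [hxc, sub_self] at h0
      have h1 := (Finset.sum_eq_zero_iff_of_nonneg (hnn hx)).1 h0.symm
      refine ⟨hx.1, hx.2.1, fun i hi => ?_⟩
      by_cases his : i ∈ s
      · rcases mul_eq_zero.1 (h1 i his) with h | h
        · exact h
        · exfalso
          apply hi
          rw [Finset.mem_filter]
          exact ⟨his, by linarith⟩
      · exact hx.2.2 i his
    · intro hx
      have hxs : x ∈ cell s := cell_mono (Finset.filter_subset _ _) hx
      refine ⟨hxs, ?_⟩
      have h0 := key hxs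
      have h1 : ∑ i ∈ s, x i * (c - l (vtx i)) = 0 := by
        apply Finset.sum_eq_zero
        intro i hi
        by_cases h : l (vtx i) = c
        · rw [h, sub_self, mul_zero]
        · rw [hx.2.2 i (by simp [hi, h]), zero_mul]
      rw [h1] at h0
      linarith

theorem isCompact_cell (s : Finset (Fin n)) : IsCompact (cell s) := by
  rw [cell_eq_convexHull]
  exact (Finset.finite_toSet _).isCompact_convexHull ℝ

theorem isClosed_cell (s : Finset (Fin n)) : IsClosed (cell s) := (isCompact_cell s).isClosed

theorem finrank_cell {s : Finset (Fin n)} (hs : s.card ≤ 3) :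
    Module.finrank ℝ (vectorSpan ℝ (cell s)) ≤ 2 := by
  classical
  rw [cell_eq_convexHull, ← direction_affineSpan, affineSpan_convexHull, direction_affineSpan]
  rcases Nat.eq_zero_or_pos s.card with h0 | hpos
  · rw [Finset.card_eq_zero] at h0
    subst h0
    have h1 : ((Finset.image (vtx : Fin n → E n) ∅ : Finset (E n)) : Set (E n)) = ∅ := by
      ext x
      simp
    rw [h1, vectorSpan_empty, finrank_bot]
    norm_num
  · obtain ⟨k, hk⟩ : ∃ k, s.card = k + 1 := ⟨s.card - 1, by omega⟩
    have := finrank_vectorSpan_image_finset_le ℝ (vtx : Fin n → E n) s hk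
    omega

theorem vtx_injective : Function.Injective (vtx : Fin n → E n) := by
  intro i j h
  have := congrArg (fun x : E n => x i) h
  simp only [vtx_apply, if_true] at this
  by_contra hne
  rw [if_neg hne] at this
  exact absurd this (by norm_num)

theorem affineIndependent_vtx : AffineIndependent ℝ (vtx : Fin n → E n) := by
  have h : LinearIndependent ℝ (vtx : Fin n → E n) := by
    rw [Fintype.linearIndependent_iff]
    intro g hg i
    have h1 := congrArg (fun x : E n => x i) hg
    simpa [vtx_apply] using h1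
  rw [affineIndependent_iff]
  intro s w hw0 hw i hi
  exact linearIndependent_iff'.1 h s w hw i hi

theorem simplex_cell (s : Finset (Fin n)) : ∃ t : Finset (E n),
    AffineIndependent ℝ ((↑) : t → E n) ∧ cell s = convexHull ℝ (t : Set (E n)) := by
  classical
  refine ⟨s.image vtx, ?_, cell_eq_convexHull s⟩
  have h := (affineIndependent_vtx (n := n)).range
  exact h.mono (by
    intro x hx
    rw [Finset.mem_coe, Finset.mem_image] at hx
    obtain ⟨i, -, rfl⟩ := hx
    exact Set.mem_range_self i)

/-- The standard realization of an abstract complex. -/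
noncomputable def realize (K : Set (Finset (Fin n))) (hdown : ∀ s ∈ K, ∀ t ⊆ s, t ∈ K) :
    PolyComplex n where
  members := cell '' K
  finite := (Set.toFinite K).image _
  polytope := by
    rintro _ ⟨s, -, rfl⟩
    exact ⟨_, Finset.finite_toSet _, cell_eq_convexHull s⟩
  face_mem := by
    rintro _ ⟨s, hs, rfl⟩ F hF
    obtain ⟨t, ht, rfl⟩ := exists_of_isFace hF
    exact ⟨t, hdown s hs t ht, rfl⟩
  inter_face := by
    rintro _ ⟨s, hs, rfl⟩ _ ⟨t, ht, rfl⟩
    rw [cell_inter]
    exact ⟨isFace_cell Finset.inter_subset_left, isFace_cell Finset.inter_subset_right⟩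

end Pool.Agent.LinEmb
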