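import Pool.Agent.Lib.MP_c5a51c_co.Crossing

/-!
The counting argument: a general position map of the vertices to `ℝ^4` makes two vertex-disjoint
triangles cross.
-/

set_option autoImplicit false

namespace Pool.Agent.LinEmb

open Finset

variable {m : ℕ}

/-- general position: the homogeneous coordinates of any five vertices are independent -/
def GP (F : Vx m → Fin 4 → ℝ) : Prop :=
  ∀ w : Fin 5 → Vx m, Function.Injective w → LinearIndependent ℝ (fun i => hom (F (w i)))

/-- the homogeneous coordinates of the base points of the group `j` form a basis -/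
noncomputable def bas (F : Vx m → Fin 4 → ℝ) (h : GP F) (j : Fin m) :
    Module.Basis (Fin 5) ℝ (Fin 5 → ℝ) :=
  basisOfLinearIndependentOfCardEqFinrank
    (h (fun i => Sum.inl (j, i)) (fun i k hik => by simpa using hik)) (by simp)

theorem bas_apply (F : Vx m → Fin 4 → ℝ) (h : GP F) (j : Fin m) (i : Fin 5) :
    bas F h j i = hom (F (Sum.inl (j, i))) := by
  simp [bas]

/-- coordinates of the top vertices -/
noncomputable def lam (F : Vx m → Fin 4 → ℝ) (h : GP F) (σ : Tp m) (j : Fin m) (i : Fin 5) : ℝ :=
  (bas F h j).coord i (hom (F (Sum.inr σ)))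

theorem sum_lam (F : Vx m → Fin 4 → ℝ) (h : GP F) (σ : Tp m) (j : Fin m) :
    hom (F (Sum.inr σ)) = ∑ i, lam F h σ j i • hom (F (Sum.inl (j, i))) := by
  have := (bas F h j).sum_repr (hom (F (Sum.inr σ)))
  simp only [bas_apply] at this
  exact this.symm

theorem lam_ne_zero (F : Vx m → Fin 4 → ℝ) (h : GP F) (σ : Tp m) (j : Fin m) (i : Fin 5) :
    lam F h σ j i ≠ 0 := by
  intro h0
  let w : Fin 5 → Vx m := Function.update (fun l => Sum.inl (j, l)) i (Sum.inr σ)
  have hw : Function.Injective w := by
    intro a b hab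
    simp only [w] at hab
    by_cases ha : a = i <;> by_cases hb : b = i
    · rw [ha, hb]
    · subst ha
      rw [Function.update_self, Function.update_of_ne hb] at hab
      exact absurd hab (by simp)
    · subst hb
      rw [Function.update_self, Function.update_of_ne ha] at hab
      exact absurd hab (by simp)
    · rw [Function.update_of_ne ha, Function.update_of_ne hb] at hab
      simpa using hab
  have hli := h w hw
  rw [Fintype.linearIndependent_iff] at hli
  have h1 := hli (fun l => if l = i then 1 else - lam F h σ j l) (by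
    have h2 := sum_lam F h σ j
    have h3 : ∀ l, (if l = i then (1 : ℝ) else - lam F h σ j l) • hom (F (w l)) =
        (if l = i then hom (F (Sum.inr σ)) else 0) -
          lam F h σ j l • hom (F (Sum.inl (j, l))) := by
      intro l
      by_cases hl : l = i
      · subst hl
        rw [h0]
        simp [w]
      · simp only [w, hl, if_false, Function.update_of_ne hl, zero_sub, neg_smul]
    rw [Finset.sum_congr rfl fun l _ => h3 l, Finset.sum_sub_distrib, ← h2]
    simp) i
  simp at h1

theorem minor_ne_zero (F : Vx m → Fin 4 → ℝ) (h : GP F) {σ τ : Tp m} (hne : σ ≠ τ) (j : Fin m)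
    {i k : Fin 5} (hik : i ≠ k) :
    lam F h σ j i * lam F h τ j k - lam F h σ j k * lam F h τ j i ≠ 0 := by
  intro h0
  let w : Fin 5 → Vx m := Function.update (Function.update (fun l => Sum.inl (j, l)) i
    (Sum.inr σ)) k (Sum.inr τ)
  have hwk : w k = Sum.inr τ := by simp [w]
  have hwi : w i = Sum.inr σ := by simp [w, Function.update_of_ne hik]
  have hwl : ∀ l, l ≠ i → l ≠ k → w l = Sum.inl (j, l) := by
    intro l h1 h2
    simp [w, Function.update_of_ne h2, Function.update_of_ne h1]
  have hw : Function.Injective w := by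
    intro a b hab
    by_cases ha : a = i
    · by_cases hb : b = i
      · rw [ha, hb]
      · by_cases hb' : b = k
        · exfalso
          rw [ha, hb', hwi, hwk] at hab
          exact hne (Sum.inr_injective hab)
        · exfalso
          rw [ha, hwi, hwl b hb hb'] at hab
          exact absurd hab (by simp)
    · by_cases ha' : a = k
      · by_cases hb : b = i
        · exfalso
          rw [ha', hb, hwi, hwk] at hab
          exact hne (Sum.inr_injective hab).symm
        · by_cases hb' : b = k
          · rw [ha', hb']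
          · exfalso
            rw [ha', hwk, hwl b hb hb'] at hab
            exact absurd hab (by simp)
      · by_cases hb : b = i
        · exfalso
          rw [hb, hwi, hwl a ha ha'] at hab
          exact absurd hab (by simp)
        · by_cases hb' : b = k
          · exfalso
            rw [hb', hwk, hwl a ha ha'] at hab
            exact absurd hab (by simp)
          · rw [hwl a ha ha', hwl b hb hb'] at hab
            simpa using hab
  have hli := h w hw
  rw [Fintype.linearIndependent_iff] at hli
  have h1 := hli (fun l => if l = i then lam F h τ j i else if l = k then - lam F h σ j i else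
    -(lam F h τ j i * lam F h σ j l - lam F h σ j i * lam F h τ j l)) (by
    have h2 := sum_lam F h σ j
    have h2' := sum_lam F h τ j
    have h3 : ∀ l, (if l = i then lam F h τ j i else if l = k then - lam F h σ j i else
        -(lam F h τ j i * lam F h σ j l - lam F h σ j i * lam F h τ j l)) • hom (F (w l)) =
        ((if l = i then lam F h τ j i • hom (F (Sum.inr σ)) else 0) +
        (if l = k then (- lam F h σ j i) • hom (F (Sum.inr τ)) else 0)) -
        (lam F h τ j i • (lam F h σ j l • hom (F (Sum.inl (j, l)))) -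
          lam F h σ j i • (lam F h τ j l • hom (F (Sum.inl (j, l))))) := by
      intro l
      by_cases hl : l = i
      · subst hl
        rw [if_pos rfl, if_pos rfl, if_neg hik, hwi]
        module
      · by_cases hl' : l = k
        · subst hl'
          rw [if_neg hl, if_pos rfl, if_neg hl, if_pos rfl, hwk]
          have e1 : lam F h τ j i * lam F h σ j l - lam F h σ j i * lam F h τ j l = 0 := by
            linarith
          have e2 : lam F h τ j i • (lam F h σ j l • hom (F (Sum.inl (j, l)))) -
              lam F h σ j i • (lam F h τ j l • hom (F (Sum.inl (j, l)))) =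
              (lam F h τ j i * lam F h σ j l - lam F h σ j i * lam F h τ j l) •
                hom (F (Sum.inl (j, l))) := by module
          rw [e2, e1]
          simp
        · rw [if_neg hl, if_neg hl', if_neg hl, if_neg hl', hwl l hl hl']
          module
    rw [Finset.sum_congr rfl fun l _ => h3 l, Finset.sum_sub_distrib, Finset.sum_add_distrib,
      Finset.sum_sub_distrib, ← Finset.smul_sum, ← Finset.smul_sum, ← h2, ← h2']
    simp only [Finset.sum_ite_eq', Finset.mem_univ, if_true]
    module) i
  rw [if_pos rfl] at h1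
  exact lam_ne_zero F h τ j i h1

open Classical in
/-- the signs of the coordinates of the top vertices -/
noncomputable def cellOf (F : Vx m → Fin 4 → ℝ) (h : GP F) (σ : Tp m) : Finset (Fin m × Fin 5) :=
  univ.filter (fun z => 0 < lam F h σ z.1 z.2)

open Classical in
/-- the signs of the minors of pairs of top vertices -/
noncomputable def patOf (F : Vx m → Fin 4 → ℝ) (h : GP F) (z : Tp m × Tp m) :
    Finset (Fin m × Fin 5 × Fin 5) :=
  univ.filter (fun y => 0 < lam F h z.1 y.1 y.2.1 * lam F h z.2 y.1 y.2.2 -
    lam F h z.1 y.1 y.2.2 * lam F h z.2 y.1 y.2.1)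

theorem card_cellOf (F : Vx m → Fin 4 → ℝ) (h : GP F) :
    ((univ : Finset (Tp m)).image (cellOf F h)).card ≤ 6 * (5 * m + 1) ^ 5 := by
  have := card_sign_patterns (ι := Fin m × Fin 5) (W := Fin 5 → ℝ) (Y := Tp m)
    (fun z => (bas F h z.1).coord z.2) (fun σ => hom (F (Sum.inr σ))) univ 5 (by simp)
    (cellOf F h) (by
      intro σ z
      simp only [cellOf, mem_filter, mem_univ, true_and, lam])
  simp only [Fintype.card_prod, Fintype.card_fin] at this
  rw [Nat.mul_comm m 5] at this
  exact this

theorem card_patOf (F : Vx m → Fin 4 → ℝ) (h : GP F) (T : Finset (Tp m × Tp m)) :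
    (T.image (patOf F h)).card ≤ 26 * (25 * m + 1) ^ 25 := by
  have := card_sign_patterns (ι := Fin m × Fin 5 × Fin 5)
    (W := TensorProduct ℝ (Fin 5 → ℝ) (Fin 5 → ℝ)) (Y := Tp m × Tp m)
    (fun y => LinearMap.mul' ℝ ℝ ∘ₗ
        TensorProduct.map ((bas F h y.1).coord y.2.1) ((bas F h y.1).coord y.2.2) -
      LinearMap.mul' ℝ ℝ ∘ₗ
        TensorProduct.map ((bas F h y.1).coord y.2.2) ((bas F h y.1).coord y.2.1))
    (fun z => TensorProduct.tmul ℝ (hom (F (Sum.inr z.1))) (hom (F (Sum.inr z.2)))) T 25
    (by simp [Module.finrank_tensorProduct])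
    (patOf F h) (by
      intro z y
      simp only [patOf, mem_filter, mem_univ, true_and, lam, LinearMap.sub_apply,
        LinearMap.comp_apply, TensorProduct.map_tmul, LinearMap.mul'_apply])
  simp only [Fintype.card_prod, Fintype.card_fin] at this
  have e : m * (5 * 5) = 25 * m := by ring
  rw [e] at this
  exact this

/-- the set of pairs avoiding one value in each group -/
theorem card_avoid (pick : Fin m → P5 × P5) (T : Finset (Tp m × Tp m))
    (hT : ∀ z ∈ T, ∀ j, (z.1 j, z.2 j) ≠ pick j) : T.card ≤ 99 ^ m := by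
  classical
  have h1 : T.card ≤ (Fintype.piFinset (fun j => (univ : Finset (P5 × P5)).erase (pick j))).card := by
    apply Finset.card_le_card_of_injOn (fun z j => (z.1 j, z.2 j))
    · intro z hz
      rw [mem_coe, Fintype.mem_piFinset]
      intro j
      rw [mem_erase]
      exact ⟨hT z hz j, mem_univ _⟩
    · intro z _ z' _ hzz
      apply Prod.ext
      · funext j
        exact congrArg Prod.fst (congrFun hzz j)
      · funext j
        exact congrArg Prod.snd (congrFun hzz j)
  refine h1.trans (le_of_eq ?_)
  rw [Fintype.card_piFinset]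
  have h2 : ∀ j : Fin m, ((univ : Finset (P5 × P5)).erase (pick j)).card = 99 := by
    intro j
    rw [card_erase_of_mem (mem_univ _), card_univ, Fintype.card_prod, card_P5]
  rw [Finset.prod_congr rfl fun j _ => h2 j, Finset.prod_const, card_univ, Fintype.card_fin]

theorem image_Tri (F : Vx m → Fin 4 → ℝ) (σ : Tp m) (j : Fin m) :
    F '' (Tri σ j : Set (Vx m)) =
      {F (Sum.inr σ), F (Sum.inl (j, (σ j).1.1)), F (Sum.inl (j, (σ j).1.2))} := by
  simp only [Tri, coe_insert, coe_singleton, Set.image_insert_eq, Set.image_singleton]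

/-- The counting argument. -/
theorem cross_gp (hm : (6 * (5 * m + 1) ^ 5) ^ 2 * (26 * (25 * m + 1) ^ 25 + 1) * 99 ^ m < 100 ^ m)
    (F : Vx m → Fin 4 → ℝ) (h : GP F) :
    ∃ (σ τ : Tp m) (j : Fin m), Disjoint (Tri σ j) (Tri τ j) ∧
      (convexHull ℝ (F '' (Tri σ j : Set (Vx m))) ∩
        convexHull ℝ (F '' (Tri τ j : Set (Vx m)))).Nonempty := by
  classical
  by_contra hcon
  push Not at hcon
  -- every cell contains few top vertices
  have hcell : ∀ C : Finset (Fin m × Fin 5),
      (univ.filter (fun σ : Tp m => cellOf F h σ = C)).card ^ 2 ≤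
        (26 * (25 * m + 1) ^ 25 + 1) * 99 ^ m := by
    intro C
    set ℳ := univ.filter (fun σ : Tp m => cellOf F h σ = C) with hℳ
    have hoff : ℳ.offDiag.card ≤ 99 ^ m * (ℳ.offDiag.image (patOf F h)).card := by
      apply Finset.card_le_mul_card_image
      intro Q _
      -- the relation
      have hex : ∀ z ∈ ℳ.offDiag.filter (fun z => patOf F h z = Q), ∀ j : Fin m,
          ∃ f a b c d : Fin 5, a < b ∧ c < d ∧
          ((lam F h z.1 j a * lam F h z.2 j f - lam F h z.1 j f * lam F h z.2 j a) *
            lam F h z.2 j f < 0) ∧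
          ((lam F h z.1 j b * lam F h z.2 j f - lam F h z.1 j f * lam F h z.2 j b) *
            lam F h z.2 j f < 0) ∧
          (0 < (lam F h z.1 j c * lam F h z.2 j f - lam F h z.1 j f * lam F h z.2 j c) *
            lam F h z.2 j f) ∧
          (0 < (lam F h z.1 j d * lam F h z.2 j f - lam F h z.1 j f * lam F h z.2 j d) *
            lam F h z.2 j f) := by
        intro z hz j
        rw [mem_filter, mem_offDiag] at hz
        obtain ⟨⟨h1, h2, hne⟩, -⟩ := hz
        apply lemmaA (lam F h z.1 j) (lam F h z.2 j)
        · intro i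
          have e1 := (mem_filter.1 h1).2
          have e2 := (mem_filter.1 h2).2
          have e3 : (j, i) ∈ cellOf F h z.1 ↔ (j, i) ∈ cellOf F h z.2 := by rw [e1, e2]
          simp only [cellOf, mem_filter, mem_univ, true_and] at e3
          have n1 := lam_ne_zero F h z.1 j i
          have n2 := lam_ne_zero F h z.2 j i
          rcases lt_or_gt_of_ne n2 with h3 | h3
          · have : ¬ 0 < lam F h z.1 j i := fun h4 => absurd (e3.1 h4) (not_lt.2 h3.le)
            have h5 : lam F h z.1 j i < 0 := lt_of_le_of_ne (not_lt.1 this) n1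
            exact mul_pos_of_neg_of_neg h5 h3
          · exact mul_pos (e3.2 h3) h3
        · intro i k hik
          exact minor_ne_zero F h hne j hik
      rcases (ℳ.offDiag.filter (fun z => patOf F h z = Q)).eq_empty_or_nonempty with he | ⟨z0, hz0⟩
      · rw [he]
        simp
      · choose f a b c d hab hcd ha hb hc hd using hex z0 hz0
        apply card_avoid (fun j => (⟨(a j, b j), hab j⟩, ⟨(c j, d j), hcd j⟩))
        intro z hz j hzj
        -- the signs for `z` are those for `z0`
        have hz' := hz
        rw [mem_filter, mem_offDiag] at hz hz0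
        obtain ⟨⟨h1, h2, hne⟩, hQ⟩ := hz
        obtain ⟨⟨h10, h20, hne0⟩, hQ0⟩ := hz0
        have hcellsign : ∀ i, 0 < lam F h z.2 j i ↔ 0 < lam F h z0.2 j i := by
          intro i
          have e2 := (mem_filter.1 h2).2
          have e20 := (mem_filter.1 h20).2
          have e3 : (j, i) ∈ cellOf F h z.2 ↔ (j, i) ∈ cellOf F h z0.2 := by rw [e2, e20]
          simpa only [cellOf, mem_filter, mem_univ, true_and] using e3
        have hcellsign1 : ∀ i, 0 < lam F h z.1 j i ↔ 0 < lam F h z.2 j i := by
          intro i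
          have e2 := (mem_filter.1 h2).2
          have e1 := (mem_filter.1 h1).2
          have e3 : (j, i) ∈ cellOf F h z.1 ↔ (j, i) ∈ cellOf F h z.2 := by rw [e1, e2]
          simpa only [cellOf, mem_filter, mem_univ, true_and] using e3
        have hpatsign : ∀ i k, 0 < lam F h z.1 j i * lam F h z.2 j k -
            lam F h z.1 j k * lam F h z.2 j i ↔
            0 < lam F h z0.1 j i * lam F h z0.2 j k - lam F h z0.1 j k * lam F h z0.2 j i := by
          intro i k
          have e3 : (j, i, k) ∈ patOf F h z ↔ (j, i, k) ∈ patOf F h z0 := by rw [hQ, hQ0]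
          simpa only [patOf, mem_filter, mem_univ, true_and] using e3
        have hprod : ∀ i, i ≠ f j → (0 < (lam F h z.1 j i * lam F h z.2 j (f j) -
            lam F h z.1 j (f j) * lam F h z.2 j i) * lam F h z.2 j (f j) ↔
            0 < (lam F h z0.1 j i * lam F h z0.2 j (f j) -
            lam F h z0.1 j (f j) * lam F h z0.2 j i) * lam F h z0.2 j (f j)) := by
          intro i hi
          have n1 := minor_ne_zero F h hne j hi
          have n2 := minor_ne_zero F h hne0 j hi
          have n3 := lam_ne_zero F h z.2 j (f j)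
          have n4 := lam_ne_zero F h z0.2 j (f j)
          have s1 := hpatsign i (f j)
          have s2 := hcellsign (f j)
          rcases lt_or_gt_of_ne n1 with g1 | g1 <;> rcases lt_or_gt_of_ne n3 with g3 | g3
          · have g2 := lt_of_le_of_ne (not_lt.1 fun h' => absurd (s1.2 h') (not_lt.2 g1.le)) n2
            have g4 := lt_of_le_of_ne (not_lt.1 fun h' => absurd (s2.2 h') (not_lt.2 g3.le)) n4
            exact iff_of_true (mul_pos_of_neg_of_neg g1 g3) (mul_pos_of_neg_of_neg g2 g4)
          · have g2 := lt_of_le_of_ne (not_lt.1 fun h' => absurd (s1.2 h') (not_lt.2 g1.le)) n2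
            have g4 := s2.1 g3
            exact iff_of_false (not_lt.2 (mul_neg_of_neg_of_pos g1 g3).le)
              (not_lt.2 (mul_neg_of_neg_of_pos g2 g4).le)
          · have g2 := s1.1 g1
            have g4 := lt_of_le_of_ne (not_lt.1 fun h' => absurd (s2.2 h') (not_lt.2 g3.le)) n4
            exact iff_of_false (not_lt.2 (mul_neg_of_pos_of_neg g1 g3).le)
              (not_lt.2 (mul_neg_of_pos_of_neg g2 g4).le)
          · have g2 := s1.1 g1
            have g4 := s2.1 g3
            exact iff_of_true (mul_pos g1 g3) (mul_pos g2 g4)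
        have hne_f : ∀ i, (lam F h z0.1 j i * lam F h z0.2 j (f j) -
            lam F h z0.1 j (f j) * lam F h z0.2 j i) * lam F h z0.2 j (f j) ≠ 0 → i ≠ f j := by
          rintro i hi rfl
          apply hi
          ring
        have haf := hne_f _ (ha j).ne
        have hbf := hne_f _ (hb j).ne
        have hcf := hne_f _ (hc j).ne'
        have hdf := hne_f _ (hd j).ne'
        have hnn : ∀ i, i ≠ f j → (lam F h z.1 j i * lam F h z.2 j (f j) -
            lam F h z.1 j (f j) * lam F h z.2 j i) * lam F h z.2 j (f j) ≠ 0 := by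
          intro i hi
          exact mul_ne_zero (minor_ne_zero F h hne j hi) (lam_ne_zero F h z.2 j (f j))
        have ha' := lt_of_le_of_ne (not_lt.1 fun h' =>
          absurd ((hprod _ haf).1 h') (not_lt.2 (ha j).le)) (hnn _ haf)
        have hb' := lt_of_le_of_ne (not_lt.1 fun h' =>
          absurd ((hprod _ hbf).1 h') (not_lt.2 (hb j).le)) (hnn _ hbf)
        have hc' := (hprod _ hcf).2 (hc j)
        have hd' := (hprod _ hdf).2 (hd j)
        have hff : 0 < lam F h z.1 j (f j) * lam F h z.2 j (f j) := by
          have n1 := lam_ne_zero F h z.1 j (f j)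
          have n2 := lam_ne_zero F h z.2 j (f j)
          rcases lt_or_gt_of_ne n2 with h3 | h3
          · have h5 := lt_of_le_of_ne (not_lt.1 fun h4 =>
              absurd ((hcellsign1 (f j)).1 h4) (not_lt.2 h3.le)) n1
            exact mul_pos_of_neg_of_neg h5 h3
          · exact mul_pos ((hcellsign1 (f j)).2 h3) h3
        have hcross := cross_of_signs (fun i => F (Sum.inl (j, i))) (F (Sum.inr z.1))
          (F (Sum.inr z.2)) (lam F h z.1 j) (lam F h z.2 j) (sum_lam F h z.1 j)
          (sum_lam F h z.2 j) (f j) (a j) (b j) (c j) (d j) (hab j).ne (hcd j).ne hff ha' hb' hc' hd'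
        have z1 : z.1 j = ⟨(a j, b j), hab j⟩ := congrArg Prod.fst hzj
        have z2 : z.2 j = ⟨(c j, d j), hcd j⟩ := congrArg Prod.snd hzj
        have hac : a j ≠ c j := fun h' => by rw [h'] at ha'; exact absurd hc' (not_lt.2 ha'.le)
        have had : a j ≠ d j := fun h' => by rw [h'] at ha'; exact absurd hd' (not_lt.2 ha'.le)
        have hbc : b j ≠ c j := fun h' => by rw [h'] at hb'; exact absurd hc' (not_lt.2 hb'.le)
        have hbd : b j ≠ d j := fun h' => by rw [h'] at hb'; exact absurd hd' (not_lt.2 hb'.le)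
        have hdisj : Disjoint (Tri z.1 j) (Tri z.2 j) := by
          rw [Finset.disjoint_left]
          intro x hx hx'
          simp only [Tri, z1, z2, mem_insert, mem_singleton] at hx hx'
          rcases hx with rfl | rfl | rfl
          · simp only [Sum.inr.injEq, reduceCtorEq, or_false] at hx'
            exact hne hx'
          · simp only [reduceCtorEq, Sum.inl.injEq, Prod.mk.injEq, true_and, false_or] at hx'
            rcases hx' with h' | h'
            · exact hac h'
            · exact had h'
          · simp only [reduceCtorEq, Sum.inl.injEq, Prod.mk.injEq, true_and, false_or] at hx'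
            rcases hx' with h' | h'
            · exact hbc h'
            · exact hbd h'
        have hempty := hcon z.1 z.2 j hdisj
        rw [image_Tri, image_Tri, z1, z2] at hempty
        rw [hempty] at hcross
        exact Set.not_nonempty_empty hcross
    have hN := card_patOf F h ℳ.offDiag
    rw [offDiag_card] at hoff
    have h2 : ℳ.card ≤ 10 ^ m := by
      calc ℳ.card ≤ (univ : Finset (Tp m)).card := card_le_card (filter_subset _ _)
        _ = 10 ^ m := by
          rw [card_univ, Fintype.card_fun, card_P5, Fintype.card_fin]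
    have h3 : 99 ^ m * (ℳ.offDiag.image (patOf F h)).card ≤ 99 ^ m * (26 * (25 * m + 1) ^ 25) :=
      Nat.mul_le_mul_left _ hN
    have h4 : ℳ.card * ℳ.card - ℳ.card ≤ 99 ^ m * (26 * (25 * m + 1) ^ 25) := hoff.trans h3
    have h5 : (26 * (25 * m + 1) ^ 25 + 1) * 99 ^ m = 99 ^ m * (26 * (25 * m + 1) ^ 25) + 99 ^ m := by
      ring
    have h6 : 10 ^ m ≤ 99 ^ m := Nat.pow_le_pow_left (by norm_num) m
    rw [h5, sq]
    generalize ℳ.card * ℳ.card = k at *
    generalize 99 ^ m * (26 * (25 * m + 1) ^ 25) = k' at *
    generalize 99 ^ m = k'' at *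
    omega
  -- pigeonhole
  obtain ⟨C0, -, hmax⟩ := exists_max_image (univ : Finset (Finset (Fin m × Fin 5)))
    (fun C => (univ.filter (fun σ : Tp m => cellOf F h σ = C)).card) ⟨∅, mem_univ _⟩
  set x := (univ.filter (fun σ : Tp m => cellOf F h σ = C0)).card with hx
  have htot : 10 ^ m ≤ x * (6 * (5 * m + 1) ^ 5) := by
    calc 10 ^ m = (univ : Finset (Tp m)).card := by
          rw [card_univ, Fintype.card_fun, card_P5, Fintype.card_fin]
      _ ≤ x * ((univ : Finset (Tp m)).image (cellOf F h)).card := by
          apply Finset.card_le_mul_card_image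
          intro C _
          exact hmax C (mem_univ _)
      _ ≤ x * (6 * (5 * m + 1) ^ 5) := Nat.mul_le_mul_left _ (card_cellOf F h)
  have hx2 := hcell C0
  rw [← hx] at hx2
  have hfin : 100 ^ m ≤ (6 * (5 * m + 1) ^ 5) ^ 2 * (26 * (25 * m + 1) ^ 25 + 1) * 99 ^ m := by
    calc 100 ^ m = (10 ^ m) ^ 2 := by
          rw [← pow_mul, mul_comm m 2, pow_mul]
          norm_num
      _ ≤ (x * (6 * (5 * m + 1) ^ 5)) ^ 2 := Nat.pow_le_pow_left htot 2
      _ = (6 * (5 * m + 1) ^ 5) ^ 2 * x ^ 2 := by ring
      _ ≤ (6 * (5 * m + 1) ^ 5) ^ 2 * ((26 * (25 * m + 1) ^ 25 + 1) * 99 ^ m) :=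
          Nat.mul_le_mul_left _ hx2
      _ = _ := by ring
  exact absurd hm (not_lt.2 hfin)

/-- the number of groups can be chosen large enough -/
theorem exists_m : ∃ m : ℕ, 2 ≤ m ∧
    (6 * (5 * m + 1) ^ 5) ^ 2 * (26 * (25 * m + 1) ^ 25 + 1) * 99 ^ m < 100 ^ m := by
  have h1 : Filter.Tendsto (fun n : ℕ => ((n : ℝ) ^ 35) / (100 / 99 : ℝ) ^ n) Filter.atTop
      (nhds 0) := tendsto_pow_const_div_const_pow_of_one_lt 35 (by norm_num)
  have h2 : ∀ᶠ n : ℕ in Filter.atTop, ((n : ℝ) ^ 35) / (100 / 99 : ℝ) ^ n <
      1 / ((6 * 6 ^ 5) ^ 2 * (27 * 26 ^ 25)) := by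
    apply h1.eventually_lt_const
    positivity
  obtain ⟨m, hm, hm1⟩ := (h2.and (Filter.eventually_ge_atTop 2)).exists
  refine ⟨m, hm1, ?_⟩
  have hmR : (1 : ℝ) ≤ m := by
    have : (2 : ℝ) ≤ m := by exact_mod_cast hm1
    linarith
  rw [div_lt_div_iff₀ (by positivity) (by positivity), one_mul, div_pow, lt_div_iff₀
    (by positivity)] at hm
  have h3 : ((6 * (5 * (m : ℝ) + 1) ^ 5) ^ 2 * (26 * (25 * m + 1) ^ 25 + 1)) ≤
      (m : ℝ) ^ 35 * ((6 * 6 ^ 5) ^ 2 * (27 * 26 ^ 25)) := by
    have e1 : (5 * (m : ℝ) + 1) ^ 5 ≤ (6 * m) ^ 5 := by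
      apply pow_le_pow_left₀ (by positivity)
      linarith
    have e2 : (25 * (m : ℝ) + 1) ^ 25 ≤ (26 * m) ^ 25 := by
      apply pow_le_pow_left₀ (by positivity)
      linarith
    have e3 : (1 : ℝ) ≤ (26 * m) ^ 25 := by
      apply one_le_pow₀
      linarith
    calc ((6 * (5 * (m : ℝ) + 1) ^ 5) ^ 2 * (26 * (25 * m + 1) ^ 25 + 1))
        ≤ (6 * (6 * m) ^ 5) ^ 2 * (26 * (26 * m) ^ 25 + (26 * m) ^ 25) := by
          apply mul_le_mul
          · apply pow_le_pow_left₀ (by positivity)
            linarith
          · linarith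
          · positivity
          · positivity
      _ = (m : ℝ) ^ 35 * ((6 * 6 ^ 5) ^ 2 * (27 * 26 ^ 25)) := by ring
  have h4 : ((6 * (5 * (m : ℝ) + 1) ^ 5) ^ 2 * (26 * (25 * m + 1) ^ 25 + 1)) * 99 ^ m <
      100 ^ m := by
    calc ((6 * (5 * (m : ℝ) + 1) ^ 5) ^ 2 * (26 * (25 * m + 1) ^ 25 + 1)) * 99 ^ m
        ≤ ((m : ℝ) ^ 35 * ((6 * 6 ^ 5) ^ 2 * (27 * 26 ^ 25))) * 99 ^ m :=
          mul_le_mul_of_nonneg_right h3 (by positivity)
      _ < 100 ^ m := hm
  exact_mod_cast h4

end Pool.Agent.LinEmb
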