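import Pool.Agent.Lib.MP_c5a51c_co.Count

/-!
Perturbation into general position.
-/

set_option autoImplicit false

namespace Pool.Agent.LinEmb

open Finset

variable {m : ℕ}

/-- the interpolation between two maps -/
def interp (f g : Vx m → Fin 4 → ℝ) (ε : ℝ) : Vx m → Fin 4 → ℝ :=
  fun u i => f u i + ε * (g u i - f u i)

theorem hom_interp (f g : Vx m → Fin 4 → ℝ) (ε : ℝ) (u : Vx m) (k : Fin 5) :
    hom (interp f g ε u) k = hom (f u) k + ε * (hom (g u) k - hom (f u) k) := by
  refine Fin.cases ?_ (fun i => ?_) k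
  · simp [hom_zero]
  · simp only [hom_succ, interp]

open Polynomial in
/-- For all but finitely many `ε` the interpolation is in general position on five given
vertices. -/
theorem finite_bad (f g : Vx m → Fin 4 → ℝ) (w : Fin 5 → Vx m)
    (hg : LinearIndependent ℝ (fun i => hom (g (w i)))) :
    {ε : ℝ | ¬ LinearIndependent ℝ (fun i => hom (interp f g ε (w i)))}.Finite := by
  let M : Matrix (Fin 5) (Fin 5) ℝ[X] := fun i k =>
    C (hom (f (w i)) k) + X * C (hom (g (w i)) k - hom (f (w i)) k)
  let p : ℝ[X] := M.det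
  have heval : ∀ ε : ℝ, p.eval ε = Matrix.det (fun i k => hom (interp f g ε (w i)) k) := by
    intro ε
    have h1 : p.eval ε = (M.map (Polynomial.evalRingHom ε)).det := by
      rw [← RingHom.mapMatrix_apply, ← RingHom.map_det]
      rfl
    rw [h1]
    congr 1
    funext i k
    simp only [M, Matrix.map_apply, Polynomial.coe_evalRingHom, eval_add, eval_C, eval_mul, eval_X,
      hom_interp]
  have hp1 : p.eval 1 ≠ 0 := by
    rw [heval]
    have h1 : (fun i k => hom (interp f g 1 (w i)) k) = fun i => hom (g (w i)) := by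
      funext i k
      rw [hom_interp]
      ring
    rw [h1]
    have h2 : IsUnit (Matrix.of fun i => hom (g (w i))) := by
      rw [← Matrix.linearIndependent_rows_iff_isUnit]
      exact hg
    have h3 := (Matrix.isUnit_iff_isUnit_det _).1 h2
    exact h3.ne_zero
  have hp : p ≠ 0 := by
    intro h0
    rw [h0, eval_zero] at hp1
    exact hp1 rfl
  apply (p.roots.toFinset.finite_toSet).subset
  intro ε hε
  rw [Finset.mem_coe, Multiset.mem_toFinset, mem_roots hp, IsRoot.def, heval]
  by_contra hne
  apply hε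
  have h2 : IsUnit (Matrix.of fun i => hom (interp f g ε (w i))) := by
    rw [Matrix.isUnit_iff_isUnit_det]
    exact isUnit_iff_ne_zero.2 hne
  rw [← Matrix.linearIndependent_rows_iff_isUnit] at h2
  exact h2

/-- the moment curve -/
def mom (t : ℝ) : Fin 4 → ℝ := fun i => t ^ ((i : ℕ) + 1)

theorem hom_mom (t : ℝ) (k : Fin 5) : hom (mom t) k = t ^ (k : ℕ) := by
  refine Fin.cases ?_ (fun i => ?_) k
  · simp [hom_zero]
  · simp only [hom_succ, mom, Fin.val_succ]

theorem li_mom (z : Vx m → ℝ) (hz : Function.Injective z) (w : Fin 5 → Vx m)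
    (hw : Function.Injective w) : LinearIndependent ℝ (fun i => hom (mom (z (w i)))) := by
  have h1 : (Matrix.vandermonde (fun i => z (w i))).det ≠ 0 :=
    Matrix.det_vandermonde_ne_zero_iff.2 (hz.comp hw)
  have h2 : IsUnit (Matrix.vandermonde (fun i => z (w i))) := by
    rw [Matrix.isUnit_iff_isUnit_det]
    exact isUnit_iff_ne_zero.2 h1
  rw [← Matrix.linearIndependent_rows_iff_isUnit] at h2
  have e : (fun i => hom (mom (z (w i)))) = (Matrix.vandermonde fun i => z (w i)).row := by
    funext i k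
    rw [hom_mom]
    rfl
  rw [e]
  exact h2

/-- vertex-disjoint triangles have disjoint images -/
def Emb (F : Vx m → Fin 4 → ℝ) : Prop :=
  ∀ (σ τ : Tp m) (j k : Fin m), Disjoint (Tri σ j) (Tri τ k) →
    Disjoint (convexHull ℝ (F '' (Tri σ j : Set (Vx m))))
      (convexHull ℝ (F '' (Tri τ k : Set (Vx m))))

open Topology in
theorem emb_interp (f g : Vx m → Fin 4 → ℝ) (hf : Emb f) : ∀ᶠ ε in 𝓝 (0 : ℝ), Emb (interp f g ε) := by
  have hcont : ∀ u : Vx m, Continuous (fun ε : ℝ => interp f g ε u) := by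
    intro u
    unfold interp
    fun_prop
  have h0 : ∀ u, interp f g 0 u = f u := by
    intro u
    funext i
    simp [interp]
  unfold Emb
  rw [Filter.eventually_all]
  intro σ
  rw [Filter.eventually_all]
  intro τ
  rw [Filter.eventually_all]
  intro j
  rw [Filter.eventually_all]
  intro k
  by_cases hd : Disjoint (Tri σ j) (Tri τ k)
  · have hdis := hf σ τ j k hd
    have hc1 : IsCompact (convexHull ℝ (f '' (Tri σ j : Set (Vx m)))) :=
      ((Tri σ j).finite_toSet.image f).isCompact_convexHull ℝ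
    have hc2 : IsCompact (convexHull ℝ (f '' (Tri τ k : Set (Vx m)))) :=
      ((Tri τ k).finite_toSet.image f).isCompact_convexHull ℝ
    obtain ⟨δ, hδ, hdδ⟩ := hdis.exists_thickenings hc1 hc2.isClosed
    have hclose : ∀ᶠ ε in 𝓝 (0 : ℝ), ∀ u : Vx m, dist (interp f g ε u) (f u) < δ := by
      rw [Filter.eventually_all]
      intro u
      have h1 := (hcont u).tendsto 0
      rw [h0] at h1
      exact (Metric.tendsto_nhds.1 h1) δ hδ
    filter_upwards [hclose] with ε hε _
    have hsub : ∀ T : Finset (Vx m), convexHull ℝ (interp f g ε '' (T : Set (Vx m))) ⊆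
        Metric.thickening δ (convexHull ℝ (f '' (T : Set (Vx m)))) := by
      intro T
      apply convexHull_min _ ((convex_convexHull ℝ _).thickening δ)
      rintro _ ⟨u, hu, rfl⟩
      rw [Metric.mem_thickening_iff]
      exact ⟨f u, subset_convexHull ℝ _ ⟨u, hu, rfl⟩, hε u⟩
    exact hdδ.mono (hsub _) (hsub _)
  · exact Filter.Eventually.of_forall fun ε h => absurd h hd

/-- No map of the vertices to `ℝ^4` keeps vertex-disjoint triangles disjoint. -/
theorem not_emb (hm : (6 * (5 * m + 1) ^ 5) ^ 2 * (26 * (25 * m + 1) ^ 25 + 1) * 99 ^ m < 100 ^ m)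
    (F : Vx m → Fin 4 → ℝ) : ¬ Emb F := by
  intro hF
  classical
  obtain ⟨z, hz⟩ : ∃ z : Vx m → ℝ, Function.Injective z := by
    let e := Fintype.equivFin (Vx m)
    exact ⟨fun u => ((e u : ℕ) : ℝ), fun u v h => by
      have h0 : ((e u : ℕ) : ℝ) = ((e v : ℕ) : ℝ) := h
      have h1 : (e u : ℕ) = (e v : ℕ) := by exact_mod_cast h0
      exact e.injective (Fin.ext h1)⟩
  let g : Vx m → Fin 4 → ℝ := fun u => mom (z u)
  obtain ⟨δ, hδ, hball⟩ := Metric.eventually_nhds_iff.1 (emb_interp F g hF)
  let Bad : Set ℝ := ⋃ w : Fin 5 → Vx m, {ε : ℝ | Function.Injective w ∧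
    ¬ LinearIndependent ℝ (fun i => hom (interp F g ε (w i)))}
  have hBad : Bad.Finite := by
    apply Set.finite_iUnion
    intro w
    by_cases hw : Function.Injective w
    · exact (finite_bad F g w (li_mom z hz w hw)).subset fun ε hε => hε.2
    · refine Set.Finite.subset Set.finite_empty fun ε hε => (hw hε.1).elim
  obtain ⟨ε, hε, hεB⟩ := ((Set.Ioo_infinite hδ).sdiff hBad).nonempty
  have hE : Emb (interp F g ε) := by
    apply hball
    rw [Real.dist_eq, sub_zero, abs_of_pos hε.1]
    exact hε.2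
  have hG : GP (interp F g ε) := by
    intro w hw
    by_contra h
    apply hεB
    rw [Set.mem_iUnion]
    exact ⟨w, hw, h⟩
  obtain ⟨σ, τ, j, hdis, hne⟩ := cross_gp hm (interp F g ε) hG
  have := hE σ τ j j hdis
  rw [Set.disjoint_iff_inter_eq_empty] at this
  rw [this] at hne
  exact Set.not_nonempty_empty hne

end Pool.Agent.LinEmb
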