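import Pool.Agent.Lib.MP_c5a51c_co.Cells
import Pool.Agent.Lib.MP_c5a51c_co.Perturb

/-!
The complex, and the proof that no combinatorially equivalent complex lies in `ℝ^4`.
-/

set_option autoImplicit false

namespace Pool.Agent.LinEmb

open Finset

/-- the number of vertices -/
def NN (m : ℕ) : ℕ := Fintype.card (Vx m)

/-- numbering of the vertices -/
noncomputable def enc (m : ℕ) : Vx m ≃ Fin (NN m) := Fintype.equivFin _

variable {m : ℕ}

/-- the triangles, in terms of the numbers of the vertices -/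
noncomputable def TriF (σ : Tp m) (j : Fin m) : Finset (Fin (NN m)) :=
  (Tri σ j).map (enc m).toEmbedding

/-- the abstract simplicial complex -/
def KK (m : ℕ) : Set (Finset (Fin (NN m))) := {s | ∃ (σ : Tp m) (j : Fin m), s ⊆ TriF σ j}

/-- the complex -/
noncomputable def CC (m : ℕ) : PolyComplex (NN m) :=
  realize (KK m) (by
    rintro s ⟨σ, j, hs⟩ t ht
    exact ⟨σ, j, ht.trans hs⟩)

theorem mem_CC {P : Set (E (NN m))} : P ∈ (CC m).members ↔ ∃ s ∈ KK m, cell s = P := Iff.rfl

theorem enc_mem_TriF {u : Vx m} {σ : Tp m} {j : Fin m} : enc m u ∈ TriF σ j ↔ u ∈ Tri σ j := by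
  simp [TriF]

theorem exists_pair (i : Fin 5) : ∃ p : P5, p.1.1 = i ∨ p.1.2 = i := by
  by_cases h : i < 4
  · exact ⟨⟨(i, 4), h⟩, Or.inl rfl⟩
  · refine ⟨⟨(0, 4), by decide⟩, Or.inr ?_⟩
    fin_cases i <;> simp_all

theorem exists_tri (hm : 1 ≤ m) (u : Vx m) : ∃ (σ : Tp m) (j : Fin m), u ∈ Tri σ j := by
  rcases u with ⟨j, i⟩ | σ
  · obtain ⟨p, hp⟩ := exists_pair i
    refine ⟨fun _ => p, j, ?_⟩
    simp only [Tri, mem_insert, reduceCtorEq, mem_singleton, Sum.inl.injEq, Prod.mk.injEq,
      true_and, false_or]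
    rcases hp with h | h
    · exact Or.inl h.symm
    · exact Or.inr h.symm
  · exact ⟨σ, ⟨0, hm⟩, by simp [Tri]⟩

theorem singleton_mem (hm : 1 ≤ m) (u : Vx m) : {enc m u} ∈ KK m := by
  obtain ⟨σ, j, h⟩ := exists_tri hm u
  exact ⟨σ, j, by
    intro x hx
    rw [mem_singleton] at hx
    rw [hx, enc_mem_TriF]
    exact h⟩

theorem empty_mem (hm : 1 ≤ m) : ∅ ∈ KK m := by
  obtain ⟨p, -⟩ := exists_pair 0
  exact ⟨fun _ => p, ⟨0, hm⟩, empty_subset _⟩

theorem tri_mem (σ : Tp m) (j : Fin m) : TriF σ j ∈ KK m := ⟨σ, j, Finset.Subset.refl _⟩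

/-- the inclusion of `ℝ^k` in `ℝ^4` -/
def incl (k : ℕ) : E k →ₗ[ℝ] (Fin 4 → ℝ) where
  toFun x i := if h : (i : ℕ) < k then x ⟨i, h⟩ else 0
  map_add' x y := by
    funext i
    by_cases h : (i : ℕ) < k <;> simp [h]
  map_smul' c x := by
    funext i
    by_cases h : (i : ℕ) < k <;> simp [h]

theorem incl_injective {k : ℕ} (hk : k ≤ 4) : Function.Injective (incl k) := by
  intro x y h
  ext i
  have h1 := congrFun h ⟨i, by omega⟩
  simpa [incl] using h1

theorem no_realization
    (hm : (6 * (5 * m + 1) ^ 5) ^ 2 * (26 * (25 * m + 1) ^ 25 + 1) * 99 ^ m < 100 ^ m)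
    (hm1 : 1 ≤ m) {k : ℕ} (hk : k ≤ 4) (D : PolyComplex k) (h : CombEquiv (CC m) D) : False := by
  classical
  obtain ⟨φ, hφ⟩ := h
  let bot : (CC m).members := ⟨cell ∅, ∅, empty_mem hm1, rfl⟩
  have hD0 : (∅ : Set (E k)) ∈ D.members := D.face_mem _ (φ bot).2 _ (Or.inl rfl)
  have hbot : ((φ bot : D.members) : Set (E k)) = ∅ := by
    have h1 : ((bot : (CC m).members) : Set (E (NN m))) ⊆ (φ.symm ⟨∅, hD0⟩ : (CC m).members) := by
      change cell ∅ ⊆ _
      rw [cell_empty]
      exact Set.empty_subset _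
    have h2 := (hφ _ _).1 h1
    rw [Equiv.apply_symm_apply] at h2
    exact Set.subset_eq_empty h2 rfl
  have hzero : ∀ P : (CC m).members, ((φ P : D.members) : Set (E k)) = ∅ →
      (P : Set (E (NN m))) = ∅ := by
    intro P hP
    have h1 : ((φ P : D.members) : Set (E k)) ⊆ (φ bot : D.members) := by
      rw [hP]
      exact Set.empty_subset _
    have h2 := (hφ _ _).2 h1
    change _ ⊆ cell ∅ at h2
    rw [cell_empty] at h2
    exact Set.subset_eq_empty h2 rfl
  -- the images of the vertices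
  let ver : Vx m → (CC m).members := fun u => ⟨cell {enc m u}, _, singleton_mem hm1 u, rfl⟩
  have hver : ∀ u, ((φ (ver u) : D.members) : Set (E k)).Nonempty := by
    intro u
    rw [Set.nonempty_iff_ne_empty]
    intro h0
    have h1 := hzero _ h0
    have h2 : vtx (enc m u) ∈ cell {enc m u} := vtx_mem (mem_singleton_self _)
    have h3 : vtx (enc m u) ∈ ((ver u : (CC m).members) : Set (E (NN m))) := h2
    rw [h1] at h3
    exact h3
  choose f hf using hver
  -- triangles
  let tri : Tp m → Fin m → (CC m).members := fun σ j => ⟨cell (TriF σ j), _, tri_mem σ j, rfl⟩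
  have hsub : ∀ σ j, convexHull ℝ (f '' (Tri σ j : Set (Vx m))) ⊆ (φ (tri σ j) : D.members) := by
    intro σ j
    obtain ⟨s, -, hs⟩ := D.polytope _ (φ (tri σ j)).2
    have hconv : Convex ℝ ((φ (tri σ j) : D.members) : Set (E k)) := by
      rw [hs]
      exact convex_convexHull ℝ s
    apply convexHull_min _ hconv
    rintro _ ⟨u, hu, rfl⟩
    have h1 : ((ver u : (CC m).members) : Set (E (NN m))) ⊆ (tri σ j : (CC m).members) := by
      apply cell_mono
      intro x hx
      rw [mem_singleton] at hx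
      rw [hx, enc_mem_TriF]
      exact hu
    exact (hφ _ _).1 h1 (hf u)
  have hdisj : ∀ σ τ j k', Disjoint (Tri σ j) (Tri τ k') →
      ((φ (tri σ j) : D.members) : Set (E k)) ∩ (φ (tri τ k') : D.members) = ∅ := by
    intro σ τ j k' hd
    have hmem : ((φ (tri σ j) : D.members) : Set (E k)) ∩ (φ (tri τ k') : D.members) ∈
        D.members :=
      D.face_mem _ (φ (tri σ j)).2 _ (D.inter_face _ (φ (tri σ j)).2 _ (φ (tri τ k')).2).1
    let R : D.members := ⟨_, hmem⟩
    have h1 : ((φ (φ.symm R) : D.members) : Set (E k)) ⊆ (φ (tri σ j) : D.members) := by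
      rw [Equiv.apply_symm_apply]
      exact Set.inter_subset_left
    have h2 : ((φ (φ.symm R) : D.members) : Set (E k)) ⊆ (φ (tri τ k') : D.members) := by
      rw [Equiv.apply_symm_apply]
      exact Set.inter_subset_right
    have h3 := (hφ _ _).2 h1
    have h4 := (hφ _ _).2 h2
    have h5 : ((φ.symm R : (CC m).members) : Set (E (NN m))) ⊆ (bot : (CC m).members) := by
      have h6 : TriF σ j ∩ TriF τ k' = ∅ := by
        rw [← Finset.disjoint_iff_inter_eq_empty, TriF, TriF, Finset.disjoint_map]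
        exact hd
      have h7 := Set.subset_inter h3 h4
      change _ ⊆ cell (TriF σ j) ∩ cell (TriF τ k') at h7
      rw [cell_inter, h6] at h7
      exact h7
    have h8 := (hφ _ _).1 h5
    rw [Equiv.apply_symm_apply, hbot] at h8
    exact Set.subset_eq_empty h8 rfl
  apply not_emb hm (fun u => incl k (f u))
  intro σ τ j k' hd
  have himage : ∀ T : Finset (Vx m), convexHull ℝ ((fun u => incl k (f u)) '' (T : Set (Vx m))) =
      incl k '' convexHull ℝ (f '' (T : Set (Vx m))) := by
    intro T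
    rw [(incl k).image_convexHull, Set.image_image]
  rw [himage, himage, Set.disjoint_image_iff (incl_injective hk)]
  rw [Set.disjoint_iff_inter_eq_empty]
  apply Set.subset_eq_empty _ (hdisj σ τ j k' hd)
  exact Set.inter_subset_inter (hsub σ j) (hsub τ k')

end Pool.Agent.LinEmb
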