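import Mathlib

/-!
A combinatorial lemma on two vectors of `ℝ^5` with the same signs: a sign change argument.
-/

set_option autoImplicit false

namespace Pool.Agent.LinEmb

open Finset

def posB (s : Fin 5 → Bool) (p q : Fin 5) : Bool :=
  (decide (p < q) && s q) || (decide (q < p) && !s q)

def negB (s : Fin 5 → Bool) (p q : Fin 5) : Bool :=
  (decide (p < q) && !s q) || (decide (q < p) && s q)

set_option maxRecDepth 100000 in
theorem comb : ∀ s0 s1 s2 s3 s4 : Bool, ∃ p q1 : Fin 5, negB ![s0, s1, s2, s3, s4] p q1 = true ∧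
    ∃ q2 : Fin 5, q1 < q2 ∧ negB ![s0, s1, s2, s3, s4] p q2 = true ∧
    ∃ q3 : Fin 5, posB ![s0, s1, s2, s3, s4] p q3 = true ∧
    ∃ q4 : Fin 5, q3 < q4 ∧ posB ![s0, s1, s2, s3, s4] p q4 = true := by
  decide

theorem comb' (s : Fin 5 → Bool) : ∃ p q1 : Fin 5, negB s p q1 = true ∧
    ∃ q2 : Fin 5, q1 < q2 ∧ negB s p q2 = true ∧
    ∃ q3 : Fin 5, posB s p q3 = true ∧
    ∃ q4 : Fin 5, q3 < q4 ∧ posB s p q4 = true := by
  have h := comb (s 0) (s 1) (s 2) (s 3) (s 4)
  have e : ![s 0, s 1, s 2, s 3, s 4] = s := by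
    ext i
    fin_cases i <;> rfl
  rw [e] at h
  exact h

/-- Lemma A, unordered version. -/
theorem lemmaA0 (v e : Fin 5 → ℝ) (h : ∀ i, 0 < v i * e i)
    (hD : ∀ i k, i ≠ k → v i * e k - v k * e i ≠ 0) :
    ∃ f a b c d : Fin 5, a ≠ b ∧ c ≠ d ∧
      (v a * e f - v f * e a) * e f < 0 ∧ (v b * e f - v f * e b) * e f < 0 ∧
      0 < (v c * e f - v f * e c) * e f ∧ 0 < (v d * e f - v f * e d) * e f := by
  have he : ∀ i, e i ≠ 0 := by
    intro i h0
    have := h i
    rw [h0, mul_zero] at this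
    exact lt_irrefl _ this
  let ρ : Fin 5 → ℝ := fun i => v i / e i
  have hρ : ∀ i, v i = ρ i * e i := fun i => by
    simp only [ρ]
    field_simp [he i]
  have hinj : Function.Injective ρ := by
    intro i k hik
    by_contra hne
    apply hD i k hne
    rw [hρ i, hρ k, hik]
    ring
  let π := Tuple.sort ρ
  have hmono : StrictMono (ρ ∘ π) :=
    (Tuple.monotone_sort ρ).strictMono_of_injective (hinj.comp π.injective)
  let s : Fin 5 → Bool := fun q => decide (0 < e (π q))
  have hkey : ∀ p q : Fin 5, (v (π q) * e (π p) - v (π p) * e (π q)) * e (π p) =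
      (e (π p)) ^ 2 * (e (π q) * (ρ (π q) - ρ (π p))) := by
    intro p q
    rw [hρ (π q), hρ (π p)]
    ring
  have hsq : ∀ p : Fin 5, 0 < (e (π p)) ^ 2 := fun p => by
    have := he (π p)
    positivity
  have hpos : ∀ p q : Fin 5, posB s p q = true →
      0 < (v (π q) * e (π p) - v (π p) * e (π q)) * e (π p) := by
    intro p q hpq
    rw [hkey]
    apply mul_pos (hsq p)
    simp only [posB, s, Bool.or_eq_true, Bool.and_eq_true, decide_eq_true_eq, Bool.not_eq_true',
      decide_eq_false_iff_not, not_lt] at hpq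
    rcases hpq with ⟨h1, h2⟩ | ⟨h1, h2⟩
    · have := hmono h1
      simp only [Function.comp_apply] at this
      exact mul_pos h2 (by linarith)
    · have := hmono h1
      simp only [Function.comp_apply] at this
      have h3 : e (π q) < 0 := lt_of_le_of_ne h2 (he _)
      exact mul_pos_of_neg_of_neg h3 (by linarith)
  have hneg : ∀ p q : Fin 5, negB s p q = true →
      (v (π q) * e (π p) - v (π p) * e (π q)) * e (π p) < 0 := by
    intro p q hpq
    rw [hkey]
    apply mul_neg_of_pos_of_neg (hsq p)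
    simp only [negB, s, Bool.or_eq_true, Bool.and_eq_true, decide_eq_true_eq, Bool.not_eq_true',
      decide_eq_false_iff_not, not_lt] at hpq
    rcases hpq with ⟨h1, h2⟩ | ⟨h1, h2⟩
    · have := hmono h1
      simp only [Function.comp_apply] at this
      have h3 : e (π q) < 0 := lt_of_le_of_ne h2 (he _)
      exact mul_neg_of_neg_of_pos h3 (by linarith)
    · have := hmono h1
      simp only [Function.comp_apply] at this
      exact mul_neg_of_pos_of_neg h2 (by linarith)
  obtain ⟨p, q1, h1, q2, h12, h2, q3, h3, q4, h34, h4⟩ := comb' s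
  exact ⟨π p, π q1, π q2, π q3, π q4, fun h => h12.ne (π.injective h),
    fun h => h34.ne (π.injective h), hneg p q1 h1, hneg p q2 h2, hpos p q3 h3, hpos p q4 h4⟩

/-- Lemma A. -/
theorem lemmaA (v e : Fin 5 → ℝ) (h : ∀ i, 0 < v i * e i)
    (hD : ∀ i k, i ≠ k → v i * e k - v k * e i ≠ 0) :
    ∃ f a b c d : Fin 5, a < b ∧ c < d ∧
      (v a * e f - v f * e a) * e f < 0 ∧ (v b * e f - v f * e b) * e f < 0 ∧
      0 < (v c * e f - v f * e c) * e f ∧ 0 < (v d * e f - v f * e d) * e f := by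
  obtain ⟨f, a, b, c, d, hab, hcd, h1, h2, h3, h4⟩ := lemmaA0 v e h hD
  rcases lt_or_gt_of_ne hab with hab | hab <;> rcases lt_or_gt_of_ne hcd with hcd | hcd
  · exact ⟨f, a, b, c, d, hab, hcd, h1, h2, h3, h4⟩
  · exact ⟨f, a, b, d, c, hab, hcd, h1, h2, h4, h3⟩
  · exact ⟨f, b, a, c, d, hab, hcd, h2, h1, h3, h4⟩
  · exact ⟨f, b, a, d, c, hab, hcd, h2, h1, h4, h3⟩

end Pool.Agent.LinEmb
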