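import Pool.Agent.Lib.MP_c5a51c_co.SignCount
import Pool.Agent.Lib.MP_c5a51c_co.LemmaA

/-!
The abstract complex, and the proof that every general position map of its vertices to `ℝ^4`
makes two vertex-disjoint triangles cross.
-/

set_option autoImplicit false

namespace Pool.Agent.LinEmb

open Finset

/-- the ten pairs of elements of `Fin 5` -/
abbrev P5 : Type := {p : Fin 5 × Fin 5 // p.1 < p.2}

/-- the top vertices: functions assigning a pair to each of the `m` groups -/
abbrev Tp (m : ℕ) : Type := Fin m → P5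

/-- the vertices: `m` groups of five base vertices, and the top vertices -/
abbrev Vx (m : ℕ) : Type := (Fin m × Fin 5) ⊕ Tp m

/-- the triangle spanned by the top vertex `σ` and the pair `σ j` of the group `j` -/
def Tri {m : ℕ} (σ : Tp m) (j : Fin m) : Finset (Vx m) :=
  {Sum.inr σ, Sum.inl (j, (σ j).1.1), Sum.inl (j, (σ j).1.2)}

theorem card_P5 : Fintype.card P5 = 10 := by decide

/-- homogeneous coordinates -/
def hom (x : Fin 4 → ℝ) : Fin 5 → ℝ := Fin.cons 1 x

theorem hom_zero (x : Fin 4 → ℝ) : hom x 0 = 1 := rfl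

theorem hom_succ (x : Fin 4 → ℝ) (i : Fin 4) : hom x i.succ = x i := rfl

/-- two triangles cross -/
theorem cross_of_signs (X : Fin 5 → Fin 4 → ℝ) (p q : Fin 4 → ℝ) (v e : Fin 5 → ℝ)
    (hv : hom p = ∑ i, v i • hom (X i)) (he : hom q = ∑ i, e i • hom (X i))
    (f a b c d : Fin 5) (hab : a ≠ b) (hcd : c ≠ d) (hf : 0 < v f * e f)
    (ha : (v a * e f - v f * e a) * e f < 0) (hb : (v b * e f - v f * e b) * e f < 0)
    (hc : 0 < (v c * e f - v f * e c) * e f) (hd : 0 < (v d * e f - v f * e d) * e f) :
    (convexHull ℝ ({p, X a, X b} : Set (Fin 4 → ℝ)) ∩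
      convexHull ℝ ({q, X c, X d} : Set (Fin 4 → ℝ))).Nonempty := by
  have haf : a ≠ f := by rintro rfl; simp at ha
  have hbf : b ≠ f := by rintro rfl; simp at hb
  have hcf : c ≠ f := by rintro rfl; simp at hc
  have hdf : d ≠ f := by rintro rfl; simp at hd
  have hac : a ≠ c := by rintro rfl; linarith
  have had : a ≠ d := by rintro rfl; linarith
  have hbc : b ≠ c := by rintro rfl; linarith
  have hbd : b ≠ d := by rintro rfl; linarith
  have huniv : (univ : Finset (Fin 5)) = {a, b, c, d, f} := by
    symm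
    apply Finset.eq_univ_of_card
    rw [card_insert_of_notMem, card_insert_of_notMem, card_insert_of_notMem,
      card_insert_of_notMem, card_singleton]
    · rfl
    · simpa using hdf
    · simp [hcd, hcf]
    · simp [hbc, hbd, hbf]
    · simp [hab, hac, had, haf]
  have hsum : ∀ (M : Type) [AddCommMonoid M] (g : Fin 5 → M),
      ∑ i, g i = g a + (g b + (g c + (g d + g f))) := by
    intro M _ g
    rw [huniv, sum_insert, sum_insert, sum_insert, sum_insert, sum_singleton]
    · simpa using hdf
    · simp [hcd, hcf]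
    · simp [hbc, hbd, hbf]
    · simp [hab, hac, had, haf]
  rw [hsum] at hv he
  -- components
  have hv0 : v a + (v b + (v c + (v d + v f))) = 1 := by
    have := congrFun hv 0
    simp only [Pi.add_apply, Pi.smul_apply, hom_zero, smul_eq_mul, mul_one] at this
    exact this.symm
  have he0 : e a + (e b + (e c + (e d + e f))) = 1 := by
    have := congrFun he 0
    simp only [Pi.add_apply, Pi.smul_apply, hom_zero, smul_eq_mul, mul_one] at this
    exact this.symm
  have hvs : p = v a • X a + (v b • X b + (v c • X c + (v d • X d + v f • X f))) := by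
    funext i
    have := congrFun hv i.succ
    simpa only [Pi.add_apply, Pi.smul_apply, hom_succ] using this
  have hes : q = e a • X a + (e b • X b + (e c • X c + (e d • X d + e f • X f))) := by
    funext i
    have := congrFun he i.succ
    simpa only [Pi.add_apply, Pi.smul_apply, hom_succ] using this
  have hef : e f ≠ 0 := by
    intro h0
    rw [h0, mul_zero] at hf
    exact lt_irrefl _ hf
  have hef2 : 0 < (e f) ^ 2 := by positivity
  -- coefficients
  obtain ⟨β, hβ⟩ : ∃ β : ℝ, β = (v f * e a - v a * e f) / e f := ⟨_, rfl⟩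
  obtain ⟨γ, hγ⟩ : ∃ γ : ℝ, γ = (v f * e b - v b * e f) / e f := ⟨_, rfl⟩
  obtain ⟨β', hβ'⟩ : ∃ β' : ℝ, β' = (v c * e f - v f * e c) / e f := ⟨_, rfl⟩
  obtain ⟨γ', hγ'⟩ : ∃ γ' : ℝ, γ' = (v d * e f - v f * e d) / e f := ⟨_, rfl⟩
  obtain ⟨ρ, hρ⟩ : ∃ ρ : ℝ, ρ = v f / e f := ⟨_, rfl⟩
  have hdiv : ∀ x : ℝ, x / e f = (x * e f) / (e f) ^ 2 := fun x => by
    field_simp
  have hβ0 : 0 < β := by
    rw [hβ, hdiv]
    apply div_pos _ hef2
    linarith
  have hγ0 : 0 < γ := by
    rw [hγ, hdiv]
    apply div_pos _ hef2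
    linarith
  have hβ'0 : 0 < β' := by
    rw [hβ', hdiv]
    exact div_pos hc hef2
  have hγ'0 : 0 < γ' := by
    rw [hγ', hdiv]
    exact div_pos hd hef2
  have hρ0 : 0 < ρ := by
    rw [hρ, hdiv]
    exact div_pos hf hef2
  have e1 : v a + β = ρ * e a := by rw [hβ, hρ]; field_simp; ring
  have e2 : v b + γ = ρ * e b := by rw [hγ, hρ]; field_simp; ring
  have e3 : v c = ρ * e c + β' := by rw [hβ', hρ]; field_simp; ring
  have e4 : v d = ρ * e d + γ' := by rw [hγ', hρ]; field_simp; ring
  have e5 : v f = ρ * e f := by rw [hρ]; field_simp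
  have hS : 1 + β + γ = ρ + β' + γ' := by
    have h1 : ρ * (e a + (e b + (e c + (e d + e f)))) = ρ := by rw [he0, mul_one]
    linarith
  have hSpos : 0 < 1 + β + γ := by linarith
  have hSpos' : 0 < ρ + β' + γ' := by linarith
  have key : p + β • X a + γ • X b = ρ • q + β' • X c + γ' • X d := by
    have h1 : β = ρ * e a - v a := by linarith
    have h2 : γ = ρ * e b - v b := by linarith
    have h3 : β' = v c - ρ * e c := by linarith
    have h4 : γ' = v d - ρ * e d := by linarith
    rw [hvs, hes, h1, h2, h3, h4, e5]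
    module
  refine ⟨(1 + β + γ)⁻¹ • (p + β • X a + γ • X b), ?_, ?_⟩
  · have hmem : (1 + β + γ)⁻¹ • (p + β • X a + γ • X b) =
        ((1 + β + γ)⁻¹) • p + ((1 + β + γ)⁻¹ * β) • X a + ((1 + β + γ)⁻¹ * γ) • X b := by
      module
    rw [hmem]
    have hconv := convex_convexHull ℝ ({p, X a, X b} : Set (Fin 4 → ℝ))
    have hp : p ∈ convexHull ℝ ({p, X a, X b} : Set (Fin 4 → ℝ)) :=
      subset_convexHull ℝ _ (by simp)
    have hXa : X a ∈ convexHull ℝ ({p, X a, X b} : Set (Fin 4 → ℝ)) :=
      subset_convexHull ℝ _ (by simp)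
    have hXb : X b ∈ convexHull ℝ ({p, X a, X b} : Set (Fin 4 → ℝ)) :=
      subset_convexHull ℝ _ (by simp)
    have := hconv.sum_mem (t := (univ : Finset (Fin 3)))
      (w := ![(1 + β + γ)⁻¹, (1 + β + γ)⁻¹ * β, (1 + β + γ)⁻¹ * γ]) (z := ![p, X a, X b])
      (by
        intro i _
        fin_cases i
        · simp only [Fin.zero_eta, Matrix.cons_val_zero]; positivity
        · simp only [Fin.mk_one, Matrix.cons_val_one, Matrix.cons_val_zero]; positivity
        · simp only [Fin.reduceFinMk, Matrix.cons_val]; positivity)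
      (by
        rw [Fin.sum_univ_three]
        simp only [Matrix.cons_val_zero, Matrix.cons_val_one, Matrix.cons_val]
        field_simp)
      (by
        intro i _
        fin_cases i
        · exact hp
        · exact hXa
        · exact hXb)
    rw [Fin.sum_univ_three] at this
    exact this
  · rw [key, hS]
    have hmem : (ρ + β' + γ')⁻¹ • (ρ • q + β' • X c + γ' • X d) =
        ((ρ + β' + γ')⁻¹ * ρ) • q + ((ρ + β' + γ')⁻¹ * β') • X c +
          ((ρ + β' + γ')⁻¹ * γ') • X d := by
      module
    rw [hmem]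
    have hconv := convex_convexHull ℝ ({q, X c, X d} : Set (Fin 4 → ℝ))
    have hp : q ∈ convexHull ℝ ({q, X c, X d} : Set (Fin 4 → ℝ)) :=
      subset_convexHull ℝ _ (by simp)
    have hXa : X c ∈ convexHull ℝ ({q, X c, X d} : Set (Fin 4 → ℝ)) :=
      subset_convexHull ℝ _ (by simp)
    have hXb : X d ∈ convexHull ℝ ({q, X c, X d} : Set (Fin 4 → ℝ)) :=
      subset_convexHull ℝ _ (by simp)
    have := hconv.sum_mem (t := (univ : Finset (Fin 3)))
      (w := ![(ρ + β' + γ')⁻¹ * ρ, (ρ + β' + γ')⁻¹ * β', (ρ + β' + γ')⁻¹ * γ'])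
      (z := ![q, X c, X d])
      (by
        intro i _
        fin_cases i
        · simp only [Fin.zero_eta, Matrix.cons_val_zero]; positivity
        · simp only [Fin.mk_one, Matrix.cons_val_one, Matrix.cons_val_zero]; positivity
        · simp only [Fin.reduceFinMk, Matrix.cons_val]; positivity)
      (by
        rw [Fin.sum_univ_three]
        simp only [Matrix.cons_val_zero, Matrix.cons_val_one, Matrix.cons_val]
        field_simp)
      (by
        intro i _
        fin_cases i
        · exact hp
        · exact hXa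
        · exact hXb)
    rw [Fin.sum_univ_three] at this
    exact this

end Pool.Agent.LinEmb
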