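import Mathlib

/-!
Polyhedral complexes in Euclidean space, their topological and their geometric embedding
dimensions `a` and `b`.
-/

set_option autoImplicit false

namespace Pool.Agent.LinEmb

open Set

/-- The Euclidean space `ℝ^n`. -/
abbrev E (n : ℕ) : Type := EuclideanSpace ℝ (Fin n)

/-- A convex polytope in `ℝ^n`: the convex hull of a finite set (possibly empty). -/
def IsPolytope {n : ℕ} (P : Set (E n)) : Prop :=
  ∃ s : Set (E n), s.Finite ∧ P = convexHull ℝ s

/-- `F` is a face of `P`: `F` is empty, or `F` is the set of the points of `P` where a linear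
function bounded by `c` on `P` takes the value `c`. (`P` itself is the case of the zero
function.) -/
def IsFace {n : ℕ} (F P : Set (E n)) : Prop :=
  F = ∅ ∨ ∃ (l : E n →ₗ[ℝ] ℝ) (c : ℝ), (∀ x ∈ P, l x ≤ c) ∧ F = {x ∈ P | l x = c}

/-- A complex in `ℝ^n`: a finite collection of convex polytopes which contains every face of each
of its members, and in which any two members meet in a common face of both. -/
structure PolyComplex (n : ℕ) where
  members : Set (Set (E n))
  finite : members.Finite
  polytope : ∀ P ∈ members, IsPolytope P
  face_mem : ∀ P ∈ members, ∀ F, IsFace F P → F ∈ members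
  inter_face : ∀ P ∈ members, ∀ Q ∈ members, IsFace (P ∩ Q) P ∧ IsFace (P ∩ Q) Q

/-- The complex has dimension at most `2`. -/
def PolyComplex.IsTwoComplex {n : ℕ} (C : PolyComplex n) : Prop :=
  ∀ P ∈ C.members, Module.finrank ℝ (vectorSpan ℝ P) ≤ 2

/-- All members of the complex are simplices. -/
def PolyComplex.IsSimplicial {n : ℕ} (C : PolyComplex n) : Prop :=
  ∀ P ∈ C.members, ∃ s : Finset (E n),
    AffineIndependent ℝ ((↑) : s → E n) ∧ P = convexHull ℝ (s : Set (E n))

/-- Combinatorial equivalence: a bijection between the members which preserves inclusion in both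
directions. -/
def CombEquiv {n k : ℕ} (C : PolyComplex n) (D : PolyComplex k) : Prop :=
  ∃ φ : C.members ≃ D.members, ∀ P Q : C.members,
    (P : Set (E n)) ⊆ Q ↔ (φ P : Set (E k)) ⊆ φ Q

/-- The union of all members. -/
def PolyComplex.carrier {n : ℕ} (C : PolyComplex n) : Set (E n) := ⋃₀ C.members

/-- `a(C)`: the least `k` such that `ℝ^k` contains a subset homeomorphic to the union of the
members of `C`. -/
noncomputable def PolyComplex.a {n : ℕ} (C : PolyComplex n) : ℕ :=
  sInf {k | ∃ S : Set (E k), Nonempty (C.carrier ≃ₜ S)}

/-- `b(C)`: the least `k` such that `ℝ^k` contains a complex combinatorially equivalent to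
`C`. -/
noncomputable def PolyComplex.b {n : ℕ} (C : PolyComplex n) : ℕ :=
  sInf {k | ∃ D : PolyComplex k, CombEquiv C D}

end Pool.Agent.LinEmb
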