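import Mathlib

/-!
The number of sign patterns of finitely many linear functions on a space of dimension `D` is
polynomial of degree `D` (by the Sauer-Shelah lemma).
-/

set_option autoImplicit false

namespace Pool.Agent.LinEmb

open Finset

theorem card_sign_patterns {ι W Y : Type*} [Fintype ι] [DecidableEq ι] [AddCommGroup W]
    [Module ℝ W] [FiniteDimensional ℝ W] (ℓ : ι → Module.Dual ℝ W) (ψ : Y → W) (T : Finset Y)
    (D : ℕ) (hD : Module.finrank ℝ W ≤ D) (pat : Y → Finset ι)
    (hpat : ∀ y m, m ∈ pat y ↔ 0 < ℓ m (ψ y)) :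
    (T.image pat).card ≤ (D + 1) * (Fintype.card ι + 1) ^ D := by
  classical
  have hvc : (T.image pat).vcDim ≤ D := by
    unfold vcDim
    refine Finset.sup_le fun S hS => ?_
    rw [mem_shatterer] at hS
    by_contra hlt
    push Not at hlt
    -- a linear dependence
    have hdep : ¬ LinearIndependent ℝ (fun m : S => ℓ m) := by
      intro h
      have h1 := h.fintype_card_le_finrank
      rw [Fintype.card_coe, Subspace.dual_finrank_eq] at h1
      omega
    rw [Fintype.linearIndependent_iff] at hdep
    push Not at hdep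
    obtain ⟨g, hg, i0, hi0⟩ := hdep
    -- wlog some coefficient is positive
    obtain ⟨c, hc, i1, hi1⟩ : ∃ c : S → ℝ, ∑ i, c i • ℓ i = 0 ∧ ∃ i, 0 < c i := by
      rcases lt_or_gt_of_ne hi0 with h | h
      · refine ⟨fun i => - g i, ?_, i0, by simpa using h⟩
        have h2 : ∑ i : S, (- g i) • ℓ i = -∑ i : S, g i • ℓ i := by
          rw [← Finset.sum_neg_distrib]
          exact Finset.sum_congr rfl fun i _ => neg_smul (g i) (ℓ i)
        rw [h2, hg, neg_zero]
      · exact ⟨g, hg, i0, h⟩
    obtain ⟨u, hu, huS⟩ := hS (t := S.filter (fun m => ∃ h : m ∈ S, 0 < c ⟨m, h⟩))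
      (Finset.filter_subset _ _)
    rw [Finset.mem_image] at hu
    obtain ⟨y, -, rfl⟩ := hu
    have hiff : ∀ i : S, 0 < ℓ i (ψ y) ↔ 0 < c i := by
      intro i
      have h1 := congrArg (fun A => (i : ι) ∈ A) huS
      simp only [mem_inter, i.2, true_and, mem_filter, eq_iff_iff] at h1
      rw [← hpat, h1]
      constructor
      · rintro ⟨_, h⟩
        exact h
      · intro h
        exact ⟨trivial, h⟩
    have hsum : ∑ i, c i * ℓ i (ψ y) = 0 := by
      have h1 := congrArg (fun L : Module.Dual ℝ W => L (ψ y)) hc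
      simpa [LinearMap.sum_apply] using h1
    have hpos : 0 < ∑ i, c i * ℓ i (ψ y) := by
      apply Finset.sum_pos'
      · intro i _
        by_cases h : 0 < c i
        · exact (mul_pos h ((hiff i).2 h)).le
        · have h2 : ¬ 0 < ℓ i (ψ y) := fun h' => h ((hiff i).1 h')
          push Not at h h2
          exact mul_nonneg_of_nonpos_of_nonpos h h2
      · exact ⟨i1, Finset.mem_univ _, mul_pos hi1 ((hiff i1).2 hi1)⟩
    linarith
  refine (card_le_card_shatterer _).trans (card_shatterer_le_sum_vcDim.trans ?_)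
  calc ∑ k ∈ Iic (T.image pat).vcDim, (Fintype.card ι).choose k
      ≤ ∑ k ∈ Iic D, (Fintype.card ι).choose k :=
        Finset.sum_le_sum_of_subset (Finset.Iic_subset_Iic.2 hvc)
    _ ≤ ∑ _k ∈ Iic D, (Fintype.card ι + 1) ^ D := by
        refine Finset.sum_le_sum fun k hk => ?_
        rw [Finset.mem_Iic] at hk
        calc (Fintype.card ι).choose k ≤ (Fintype.card ι) ^ k := Nat.choose_le_pow _ _
          _ ≤ (Fintype.card ι + 1) ^ k := Nat.pow_le_pow_left (by omega) _
          _ ≤ (Fintype.card ι + 1) ^ D := Nat.pow_le_pow_right (by omega) hk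
    _ = (D + 1) * (Fintype.card ι + 1) ^ D := by
        rw [Finset.sum_const, Nat.card_Iic, smul_eq_mul]

end Pool.Agent.LinEmb
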