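import Pool.Agent.Lib.MP_c5a51c_co.Cplx

/-!
The complex embeds in `ℝ^3`.
-/

set_option autoImplicit false

namespace Pool.Agent.LinEmb

open Finset

variable {m : ℕ}

/-- numbers of the vertices of the triangle `TriF σ j` -/
noncomputable def iA (σ : Tp m) (j : Fin m) : Fin (NN m) := enc m (Sum.inl (j, (σ j).1.1))
noncomputable def iB (σ : Tp m) (j : Fin m) : Fin (NN m) := enc m (Sum.inl (j, (σ j).1.2))
noncomputable def iV (σ : Tp m) : Fin (NN m) := enc m (Sum.inr σ)

theorem TriF_eq (σ : Tp m) (j : Fin m) : TriF σ j = {iV σ, iA σ j, iB σ j} := by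
  simp [TriF, Tri, iA, iB, iV, Finset.map_insert]

theorem iA_ne_iB (σ : Tp m) (j : Fin m) : iA σ j ≠ iB σ j := by
  intro h
  have h1 := (enc m).injective h
  simp only [Sum.inl.injEq, Prod.mk.injEq, true_and] at h1
  exact (σ j).2.ne h1

theorem iV_ne_iA (σ τ : Tp m) (j : Fin m) : iV σ ≠ iA τ j := by
  intro h
  have h1 := (enc m).injective h
  exact absurd h1 (by simp)

theorem iV_ne_iB (σ τ : Tp m) (j : Fin m) : iV σ ≠ iB τ j := by
  intro h
  have h1 := (enc m).injective h
  exact absurd h1 (by simp)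

/-- heights of the vertices -/
noncomputable def ht (u : Vx m) : ℝ :=
  Sum.elim (fun z : Fin m × Fin 5 => -1 - ((Fintype.equivFin (Fin m × Fin 5) z : ℕ) : ℝ))
    (fun σ : Tp m => ((Fintype.equivFin (Tp m) σ : ℕ) : ℝ)) u

theorem ht_inl_neg (z : Fin m × Fin 5) : ht (Sum.inl z : Vx m) < 0 := by
  simp only [ht, Sum.elim_inl]
  have : (0 : ℝ) ≤ ((Fintype.equivFin (Fin m × Fin 5) z : ℕ) : ℝ) := Nat.cast_nonneg _
  linarith

theorem ht_inr_nonneg (σ : Tp m) : 0 ≤ ht (Sum.inr σ : Vx m) := by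
  simp only [ht, Sum.elim_inr]
  exact Nat.cast_nonneg _

theorem ht_injective : Function.Injective (ht : Vx m → ℝ) := by
  rintro (z | σ) (z' | τ) h
  · simp only [ht, Sum.elim_inl, sub_right_inj, Nat.cast_inj] at h
    rw [(Fintype.equivFin (Fin m × Fin 5)).injective (Fin.ext h)]
  · have := ht_inl_neg z
    have := ht_inr_nonneg τ
    linarith
  · have := ht_inl_neg z'
    have := ht_inr_nonneg σ
    linarith
  · simp only [ht, Sum.elim_inr, Nat.cast_inj] at h
    rw [(Fintype.equivFin (Tp m)).injective (Fin.ext h)]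

noncomputable def Z (i : Fin (NN m)) : ℝ := ht ((enc m).symm i)

theorem Z_injective : Function.Injective (Z : Fin (NN m) → ℝ) :=
  ht_injective.comp (enc m).symm.injective

theorem Z_iA_neg (σ : Tp m) (j : Fin m) : Z (iA σ j) < 0 := by
  simp only [Z, iA, Equiv.symm_apply_apply]
  exact ht_inl_neg _

theorem Z_iB_neg (σ : Tp m) (j : Fin m) : Z (iB σ j) < 0 := by
  simp only [Z, iB, Equiv.symm_apply_apply]
  exact ht_inl_neg _

theorem Z_iV_nonneg (σ : Tp m) : 0 ≤ Z (iV σ) := by
  simp only [Z, iV, Equiv.symm_apply_apply]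
  exact ht_inr_nonneg _

noncomputable def m1 (x : E (NN m)) : ℝ := ∑ i, x i * Z i
noncomputable def m2 (x : E (NN m)) : ℝ := ∑ i, x i * (Z i) ^ 2
noncomputable def var (x : E (NN m)) : ℝ := m2 x - (m1 x) ^ 2
noncomputable def gg (σ : Tp m) (j : Fin m) (x : E (NN m)) : ℝ :=
  m2 x - (Z (iA σ j) + Z (iB σ j)) * m1 x + Z (iA σ j) * Z (iB σ j)
noncomputable def kap (σ : Tp m) : ℝ := ((Fintype.equivFin (Tp m) σ : ℕ) : ℝ)
noncomputable def cod (z : Fin m × P5) : ℕ := (Fintype.equivFin (Fin m × P5) z : ℕ)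
noncomputable def bnd (σ : Tp m) (j : Fin m) : ℝ :=
  kap σ * ((Z (iV σ) - Z (iA σ j)) * (Z (iV σ) - Z (iB σ j)))
noncomputable def LL (m : ℕ) : ℝ := 1 + ∑ z : Tp m × Fin m, bnd z.1 z.2
noncomputable def third (σ : Tp m) (j : Fin m) (x : E (NN m)) : ℝ :=
  var x * (LL m * (cod (j, σ j) : ℝ) + kap σ * gg σ j x)

theorem continuous_m1 : Continuous (m1 : E (NN m) → ℝ) := by
  unfold m1
  fun_prop

theorem continuous_m2 : Continuous (m2 : E (NN m) → ℝ) := by
  unfold m2
  fun_prop

theorem continuous_third (σ : Tp m) (j : Fin m) : Continuous (third σ j) := by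
  have h1 := continuous_m1 (m := m)
  have h2 := continuous_m2 (m := m)
  unfold third var gg
  fun_prop

theorem kap_nonneg (σ : Tp m) : 0 ≤ kap σ := Nat.cast_nonneg _

theorem kap_injective : Function.Injective (kap : Tp m → ℝ) := by
  intro σ τ h
  simp only [kap, Nat.cast_inj] at h
  exact (Fintype.equivFin (Tp m)).injective (Fin.ext h)

theorem cod_injective : Function.Injective (cod : Fin m × P5 → ℕ) := by
  intro z z' h
  exact (Fintype.equivFin (Fin m × P5)).injective (Fin.ext h)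

theorem bnd_nonneg (σ : Tp m) (j : Fin m) : 0 ≤ bnd σ j := by
  have h1 := Z_iA_neg σ j
  have h2 := Z_iB_neg σ j
  have h3 := Z_iV_nonneg σ
  exact mul_nonneg (kap_nonneg σ) (mul_nonneg (by linarith) (by linarith))

theorem bnd_lt (σ : Tp m) (j : Fin m) : bnd σ j < LL m := by
  have h : bnd σ j ≤ ∑ z : Tp m × Fin m, bnd z.1 z.2 :=
    Finset.single_le_sum (f := fun z : Tp m × Fin m => bnd z.1 z.2)
      (fun z _ => bnd_nonneg z.1 z.2) (mem_univ (σ, j))
  unfold LL
  linarith

theorem sum_tri {σ : Tp m} {j : Fin m} {x : E (NN m)} (hx : x ∈ cell (TriF σ j))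
    (h : Fin (NN m) → ℝ) : ∑ i, x i * h i =
      x (iV σ) * h (iV σ) + (x (iA σ j) * h (iA σ j) + x (iB σ j) * h (iB σ j)) := by
  have h1 : ∑ i, x i * h i = ∑ i ∈ TriF σ j, x i * h i := by
    symm
    apply Finset.sum_subset (Finset.subset_univ _)
    intro i _ hi
    rw [hx.2.2 i hi, zero_mul]
  rw [h1, TriF_eq, sum_insert, sum_insert, sum_singleton]
  · simpa using iA_ne_iB σ j
  · simp [iV_ne_iA, iV_ne_iB]

theorem sum_one {σ : Tp m} {j : Fin m} {x : E (NN m)} (hx : x ∈ cell (TriF σ j)) :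
    x (iV σ) + (x (iA σ j) + x (iB σ j)) = 1 := by
  have := sum_tri hx (fun _ => 1)
  simp only [mul_one] at this
  rw [← this]
  exact hx.2.1

theorem gg_eq {σ : Tp m} {j : Fin m} {x : E (NN m)} (hx : x ∈ cell (TriF σ j)) :
    gg σ j x = x (iV σ) * ((Z (iV σ) - Z (iA σ j)) * (Z (iV σ) - Z (iB σ j))) := by
  have h0 := sum_one hx
  have h1 := sum_tri hx Z
  have h2 := sum_tri hx (fun i => (Z i) ^ 2)
  unfold gg m1 m2
  rw [h1, h2]
  have h3 : x (iV σ) = 1 - (x (iA σ j) + x (iB σ j)) := by linarith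
  rw [h3]
  ring

theorem gg_nonneg {σ : Tp m} {j : Fin m} {x : E (NN m)} (hx : x ∈ cell (TriF σ j)) :
    0 ≤ gg σ j x := by
  rw [gg_eq hx]
  have h1 := Z_iA_neg σ j
  have h2 := Z_iB_neg σ j
  have h3 := Z_iV_nonneg σ
  exact mul_nonneg (hx.1 _) (mul_nonneg (by linarith) (by linarith))

theorem kap_gg_lt {σ : Tp m} {j : Fin m} {x : E (NN m)} (hx : x ∈ cell (TriF σ j)) :
    kap σ * gg σ j x < LL m := by
  refine lt_of_le_of_lt ?_ (bnd_lt σ j)
  rw [gg_eq hx]
  unfold bnd
  apply mul_le_mul_of_nonneg_left _ (kap_nonneg σ)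
  have h1 := Z_iA_neg σ j
  have h2 := Z_iB_neg σ j
  have h3 := Z_iV_nonneg σ
  have h4 : 0 ≤ (Z (iV σ) - Z (iA σ j)) * (Z (iV σ) - Z (iB σ j)) :=
    mul_nonneg (by linarith) (by linarith)
  have h5 : x (iV σ) ≤ 1 := by
    have := sum_one hx
    have := hx.1 (iA σ j)
    have := hx.1 (iB σ j)
    linarith
  calc x (iV σ) * ((Z (iV σ) - Z (iA σ j)) * (Z (iV σ) - Z (iB σ j)))
      ≤ 1 * ((Z (iV σ) - Z (iA σ j)) * (Z (iV σ) - Z (iB σ j))) :=
        mul_le_mul_of_nonneg_right h5 h4
    _ = _ := one_mul _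

theorem var_eq {σ : Tp m} {j : Fin m} {x : E (NN m)} (hx : x ∈ cell (TriF σ j)) :
    var x = x (iA σ j) * x (iB σ j) * (Z (iA σ j) - Z (iB σ j)) ^ 2 +
      x (iV σ) * x (iA σ j) * (Z (iV σ) - Z (iA σ j)) ^ 2 +
      x (iV σ) * x (iB σ j) * (Z (iV σ) - Z (iB σ j)) ^ 2 := by
  have h0 := sum_one hx
  have h1 := sum_tri hx Z
  have h2 := sum_tri hx (fun i => (Z i) ^ 2)
  unfold var m1 m2
  rw [h1, h2]
  have h3 : x (iV σ) = 1 - (x (iA σ j) + x (iB σ j)) := by linarith
  rw [h3]
  ring

theorem eq_comb {σ : Tp m} {j : Fin m} {x : E (NN m)} (hx : x ∈ cell (TriF σ j)) :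
    x = x (iV σ) • vtx (iV σ) + (x (iA σ j) • vtx (iA σ j) + x (iB σ j) • vtx (iB σ j)) := by
  conv_lhs => rw [eq_sum_vtx_of_mem hx]
  rw [TriF_eq, sum_insert, sum_insert, sum_singleton]
  · simpa using iA_ne_iB σ j
  · simp [iV_ne_iA, iV_ne_iB]

theorem Z_iV_ne_iA (σ : Tp m) (j : Fin m) : Z (iV σ) - Z (iA σ j) ≠ 0 := by
  have h1 := Z_iA_neg σ j
  have h3 := Z_iV_nonneg σ
  linarith

theorem Z_iV_ne_iB (σ : Tp m) (j : Fin m) : Z (iV σ) - Z (iB σ j) ≠ 0 := by
  have h1 := Z_iB_neg σ j
  have h3 := Z_iV_nonneg σ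
  linarith

theorem Z_iA_ne_iB (σ : Tp m) (j : Fin m) : Z (iA σ j) - Z (iB σ j) ≠ 0 := by
  intro h
  exact iA_ne_iB σ j (Z_injective (by linarith))

/-- If the variance vanishes, the point is a vertex. -/
theorem vertex_of_var {σ : Tp m} {j : Fin m} {x : E (NN m)} (hx : x ∈ cell (TriF σ j))
    (h0 : var x = 0) : ∃ i, x = vtx i ∧ m1 x = Z i := by
  have h1 := hx.1 (iA σ j)
  have h2 := hx.1 (iB σ j)
  have h3 := hx.1 (iV σ)
  have hone := sum_one hx
  rw [var_eq hx] at h0
  have n1 := Z_iV_ne_iA σ j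
  have n2 := Z_iV_ne_iB σ j
  have n3 := Z_iA_ne_iB σ j
  have p1 : 0 < (Z (iV σ) - Z (iA σ j)) ^ 2 := by positivity
  have p2 : 0 < (Z (iV σ) - Z (iB σ j)) ^ 2 := by positivity
  have p3 : 0 < (Z (iA σ j) - Z (iB σ j)) ^ 2 := by positivity
  have q1 : 0 ≤ x (iA σ j) * x (iB σ j) * (Z (iA σ j) - Z (iB σ j)) ^ 2 := by positivity
  have q2 : 0 ≤ x (iV σ) * x (iA σ j) * (Z (iV σ) - Z (iA σ j)) ^ 2 := by positivity
  have q3 : 0 ≤ x (iV σ) * x (iB σ j) * (Z (iV σ) - Z (iB σ j)) ^ 2 := by positivity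
  have r1 : x (iA σ j) * x (iB σ j) = 0 := by
    have : x (iA σ j) * x (iB σ j) * (Z (iA σ j) - Z (iB σ j)) ^ 2 = 0 := by linarith
    rcases mul_eq_zero.1 this with h | h
    · exact h
    · exact absurd h p3.ne'
  have r2 : x (iV σ) * x (iA σ j) = 0 := by
    have : x (iV σ) * x (iA σ j) * (Z (iV σ) - Z (iA σ j)) ^ 2 = 0 := by linarith
    rcases mul_eq_zero.1 this with h | h
    · exact h
    · exact absurd h p1.ne'
  have r3 : x (iV σ) * x (iB σ j) = 0 := by
    have : x (iV σ) * x (iB σ j) * (Z (iV σ) - Z (iB σ j)) ^ 2 = 0 := by linarith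
    rcases mul_eq_zero.1 this with h | h
    · exact h
    · exact absurd h p2.ne'
  have hcomb := eq_comb hx
  have hm1 := sum_tri hx Z
  by_cases hV : x (iV σ) = 0
  · by_cases hA : x (iA σ j) = 0
    · have hB : x (iB σ j) = 1 := by rw [hV, hA] at hone; linarith
      refine ⟨iB σ j, ?_, ?_⟩
      · rw [hcomb, hV, hA, hB]
        simp
      · unfold m1
        rw [hm1, hV, hA, hB]
        ring
    · have hB : x (iB σ j) = 0 := by
        rcases mul_eq_zero.1 r1 with h | h
        · exact absurd h hA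
        · exact h
      have hA' : x (iA σ j) = 1 := by rw [hV, hB] at hone; linarith
      refine ⟨iA σ j, ?_, ?_⟩
      · rw [hcomb, hV, hA', hB]
        simp
      · unfold m1
        rw [hm1, hV, hA', hB]
        ring
  · have hA : x (iA σ j) = 0 := by
      rcases mul_eq_zero.1 r2 with h | h
      · exact absurd h hV
      · exact h
    have hB : x (iB σ j) = 0 := by
      rcases mul_eq_zero.1 r3 with h | h
      · exact absurd h hV
      · exact h
    have hV' : x (iV σ) = 1 := by rw [hA, hB] at hone; linarith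
    refine ⟨iV σ, ?_, ?_⟩
    · rw [hcomb, hV', hA, hB]
      simp
    · unfold m1
      rw [hm1, hV', hA, hB]
      ring

/-- The key injectivity statement. -/
theorem third_injective {σ τ : Tp m} {j k : Fin m} {x y : E (NN m)}
    (hx : x ∈ cell (TriF σ j)) (hy : y ∈ cell (TriF τ k)) (h1 : m1 x = m1 y) (h2 : m2 x = m2 y)
    (h3 : third σ j x = third τ k y) : x = y := by
  have hvar : var x = var y := by unfold var; rw [h1, h2]
  by_cases h0 : var x = 0
  · obtain ⟨i, hi, hi'⟩ := vertex_of_var hx h0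
    obtain ⟨l, hl, hl'⟩ := vertex_of_var hy (hvar ▸ h0)
    have : i = l := Z_injective (by rw [← hi', ← hl', h1])
    rw [hi, hl, this]
  · unfold third at h3
    rw [← hvar] at h3
    have h4 := mul_left_cancel₀ h0 h3
    have g1 := gg_nonneg hx
    have g2 := gg_nonneg hy
    have g3 := kap_gg_lt hx
    have g4 := kap_gg_lt hy
    have k1 := mul_nonneg (kap_nonneg σ) g1
    have k2 := mul_nonneg (kap_nonneg τ) g2
    have hL : 0 < LL m := lt_of_le_of_lt k1 g3
    have hcod : cod (j, σ j) = cod (k, τ k) := by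
      rcases lt_trichotomy (cod (j, σ j)) (cod (k, τ k)) with h | h | h
      · exfalso
        have h5 : (cod (j, σ j) : ℝ) + 1 ≤ cod (k, τ k) := by exact_mod_cast h
        have h6 := mul_le_mul_of_nonneg_left h5 hL.le
        linarith
      · exact h
      · exfalso
        have h5 : (cod (k, τ k) : ℝ) + 1 ≤ cod (j, σ j) := by exact_mod_cast h
        have h6 := mul_le_mul_of_nonneg_left h5 hL.le
        linarith
    have hjk := cod_injective hcod
    simp only [Prod.mk.injEq] at hjk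
    obtain ⟨rfl, hστ⟩ := hjk
    have hA : iA τ j = iA σ j := by unfold iA; rw [hστ]
    have hB : iB τ j = iB σ j := by unfold iB; rw [hστ]
    rw [hcod, add_right_inj] at h4
    have hgg : gg τ j y = gg σ j x := by
      unfold gg
      rw [hA, hB, h1, h2]
    rw [hgg] at h4
    have ox := sum_one hx
    have oy := sum_one hy
    have mx := sum_tri hx Z
    have my := sum_tri hy Z
    have m2x := sum_tri hx (fun i => (Z i) ^ 2)
    have m2y := sum_tri hy (fun i => (Z i) ^ 2)
    have cx := eq_comb hx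
    have cy := eq_comb hy
    have n3 := Z_iA_ne_iB σ j
    have n1 := Z_iV_ne_iA σ j
    have n2 := Z_iV_ne_iB σ j
    by_cases hg : gg σ j x = 0
    · -- both on the common edge
      have hxV : x (iV σ) = 0 := by
        rw [gg_eq hx] at hg
        rcases mul_eq_zero.1 hg with h | h
        · exact h
        · exact absurd h (mul_ne_zero (Z_iV_ne_iA σ j) (Z_iV_ne_iB σ j))
      have hyV : y (iV τ) = 0 := by
        rw [← hgg, gg_eq hy] at hg
        rcases mul_eq_zero.1 hg with h | h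
        · exact h
        · exact absurd h (mul_ne_zero (Z_iV_ne_iA τ j) (Z_iV_ne_iB τ j))
      rw [hA, hB] at oy my cy
      rw [hxV] at ox mx cx
      rw [hyV] at oy my cy
      unfold m1 at h1
      rw [mx, my] at h1
      have e1 : (x (iA σ j) - y (iA σ j)) * (Z (iA σ j) - Z (iB σ j)) = 0 := by
        have e2 : x (iB σ j) = 1 - x (iA σ j) := by linarith
        have e3 : y (iB σ j) = 1 - y (iA σ j) := by linarith
        rw [e2, e3] at h1
        linarith
      have e2 : x (iA σ j) = y (iA σ j) := by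
        rcases mul_eq_zero.1 e1 with h | h
        · linarith
        · exact absurd h n3
      have e3 : x (iB σ j) = y (iB σ j) := by linarith
      rw [cx, cy, e2, e3]
      simp
    · have hkap : kap σ = kap τ := mul_right_cancel₀ hg h4
      have hst := kap_injective hkap
      subst hst
      unfold m1 at h1
      unfold m2 at h2
      rw [mx, my] at h1
      rw [m2x, m2y] at h2
      simp only at h2
      -- differences
      obtain ⟨dV, hdV⟩ : ∃ d, d = x (iV σ) - y (iV σ) := ⟨_, rfl⟩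
      obtain ⟨dA, hdA⟩ : ∃ d, d = x (iA σ j) - y (iA σ j) := ⟨_, rfl⟩
      obtain ⟨dB, hdB⟩ : ∃ d, d = x (iB σ j) - y (iB σ j) := ⟨_, rfl⟩
      have s0 : dV + (dA + dB) = 0 := by rw [hdV, hdA, hdB]; linarith
      have s1 : dV * Z (iV σ) + (dA * Z (iA σ j) + dB * Z (iB σ j)) = 0 := by
        rw [hdV, hdA, hdB]
        linarith
      have s2 : dV * (Z (iV σ)) ^ 2 + (dA * (Z (iA σ j)) ^ 2 + dB * (Z (iB σ j)) ^ 2) = 0 := by
        rw [hdV, hdA, hdB]
        linarith
      have tV : dV * ((Z (iV σ) - Z (iA σ j)) * (Z (iV σ) - Z (iB σ j))) = 0 := by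
        linear_combination s2 - (Z (iA σ j) + Z (iB σ j)) * s1 + Z (iA σ j) * Z (iB σ j) * s0
      have uV : dV = 0 := by
        rcases mul_eq_zero.1 tV with h | h
        · exact h
        · exact absurd h (mul_ne_zero n1 n2)
      rw [uV] at s0 s1
      have tA : dA * (Z (iA σ j) - Z (iB σ j)) = 0 := by
        linear_combination s1 - Z (iB σ j) * s0
      have uA : dA = 0 := by
        rcases mul_eq_zero.1 tA with h | h
        · exact h
        · exact absurd h n3
      have uB : dB = 0 := by rw [uA] at s0; linarith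
      have e1 : x (iV σ) = y (iV σ) := by linarith
      have e2 : x (iA σ j) = y (iA σ j) := by linarith
      have e3 : x (iB σ j) = y (iB σ j) := by linarith
      rw [cx, cy, e1, e2, e3]

theorem iA_eq_iff {σ τ : Tp m} {j k : Fin m} : iA σ j = iA τ k ↔ j = k ∧ (σ j).1.1 = (τ k).1.1 := by
  unfold iA
  rw [(enc m).injective.eq_iff]
  simp

theorem iB_eq_iff {σ τ : Tp m} {j k : Fin m} : iB σ j = iB τ k ↔ j = k ∧ (σ j).1.2 = (τ k).1.2 := by
  unfold iB
  rw [(enc m).injective.eq_iff]
  simp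

theorem iA_eq_iB_iff {σ τ : Tp m} {j k : Fin m} :
    iA σ j = iB τ k ↔ j = k ∧ (σ j).1.1 = (τ k).1.2 := by
  unfold iA iB
  rw [(enc m).injective.eq_iff]
  simp

theorem iV_eq_iff {σ τ : Tp m} : iV σ = iV τ ↔ σ = τ := by
  unfold iV
  rw [(enc m).injective.eq_iff]
  simp

theorem third_of_top {σ τ : Tp m} {j k : Fin m} {x : E (NN m)}
    (hx : x ∈ cell (TriF σ j)) (hy : x ∈ cell (TriF τ k)) (hV : x (iV σ) ≠ 0) :
    third σ j x = third τ k x := by
  have h1 : iV σ ∈ TriF τ k := by
    by_contra h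
    exact hV (hy.2.2 _ h)
  rw [TriF_eq] at h1
  simp only [mem_insert, iV_eq_iff, iV_ne_iA, mem_singleton, iV_ne_iB, or_self, or_false] at h1
  subst h1
  by_cases hjk : j = k
  · subst hjk
    rfl
  · have hA : x (iA σ j) = 0 := by
      apply hy.2.2
      rw [TriF_eq]
      simp only [mem_insert, mem_singleton, iA_eq_iff, iA_eq_iB_iff, hjk, false_and, or_false]
      exact fun h => iV_ne_iA _ _ _ h.symm
    have hB : x (iB σ j) = 0 := by
      apply hy.2.2
      rw [TriF_eq]
      simp only [mem_insert, mem_singleton, iB_eq_iff, hjk, false_and, or_false, not_or]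
      refine ⟨fun h => iV_ne_iB _ _ _ h.symm, fun h => ?_⟩
      exact hjk (iA_eq_iB_iff.1 h.symm).1.symm
    have hv : var x = 0 := by
      rw [var_eq hx, hA, hB]
      ring
    unfold third
    rw [hv, zero_mul, zero_mul]

/-- compatibility of the local formulas -/
theorem third_compat {σ τ : Tp m} {j k : Fin m} {x : E (NN m)}
    (hx : x ∈ cell (TriF σ j)) (hy : x ∈ cell (TriF τ k)) : third σ j x = third τ k x := by
  by_cases hV : x (iV σ) = 0
  · by_cases hW : x (iV τ) = 0
    · have g1 : gg σ j x = 0 := by rw [gg_eq hx, hV, zero_mul]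
      have g2 : gg τ k x = 0 := by rw [gg_eq hy, hW, zero_mul]
      by_cases h0 : x (iA σ j) = 0 ∨ x (iB σ j) = 0
      · have hv : var x = 0 := by
          rw [var_eq hx, hV]
          rcases h0 with h | h <;> rw [h] <;> ring
        unfold third
        rw [hv, zero_mul, zero_mul]
      · push Not at h0
        have hA : iA σ j ∈ TriF τ k := by
          by_contra h
          exact h0.1 (hy.2.2 _ h)
        have hB : iB σ j ∈ TriF τ k := by
          by_contra h
          exact h0.2 (hy.2.2 _ h)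
        rw [TriF_eq] at hA hB
        simp only [mem_insert, mem_singleton] at hA hB
        have hjk : j = k ∧ σ j = τ k := by
          rcases hA with h | h | h
          · exact absurd h.symm (iV_ne_iA _ _ _)
          · rcases hB with h' | h' | h'
            · exact absurd h'.symm (iV_ne_iB _ _ _)
            · exfalso
              exact iA_ne_iB σ j (h.trans h'.symm)
            · obtain ⟨e1, e2⟩ := iA_eq_iff.1 h
              obtain ⟨-, e3⟩ := iB_eq_iff.1 h'
              refine ⟨e1, Subtype.ext (Prod.ext e2 e3)⟩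
          · obtain ⟨e1, e2⟩ := iA_eq_iB_iff.1 h
            rcases hB with h' | h' | h'
            · exact absurd h'.symm (iV_ne_iB _ _ _)
            · exfalso
              obtain ⟨-, e3⟩ := iA_eq_iB_iff.1 h'.symm
              have l1 := (σ j).2
              have l2 := (τ k).2
              rw [e2, ← e3] at l1
              exact absurd (l1.trans l2) (lt_irrefl _)
            · exfalso
              exact iA_ne_iB σ j (h.trans h'.symm)
        unfold third
        rw [g1, g2, mul_zero, mul_zero, hjk.2, hjk.1]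
    · exact (third_of_top hy hx hW).symm
  · exact third_of_top hx hy hV

end Pool.Agent.LinEmb
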