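import Pool.Agent.Lib.MP_c5a51c_co.Three

/-!
The homeomorphism of the carrier onto a subset of `ℝ^3`.
-/

set_option autoImplicit false

namespace Pool.Agent.LinEmb

open Finset

variable {m : ℕ}

theorem carrier_eq : (CC m).carrier = ⋃ z : Tp m × Fin m, cell (TriF z.1 z.2) := by
  ext x
  simp only [PolyComplex.carrier, Set.mem_sUnion, Set.mem_iUnion]
  constructor
  · rintro ⟨P, ⟨s, ⟨σ, j, hs⟩, rfl⟩, hx⟩
    exact ⟨(σ, j), cell_mono hs hx⟩
  · rintro ⟨z, hx⟩
    exact ⟨_, ⟨_, tri_mem z.1 z.2, rfl⟩, hx⟩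

open Classical in
/-- the third coordinate -/
noncomputable def thirdG (x : E (NN m)) : ℝ :=
  if h : ∃ z : Tp m × Fin m, x ∈ cell (TriF z.1 z.2) then third h.choose.1 h.choose.2 x else 0

theorem thirdG_eq {σ : Tp m} {j : Fin m} {x : E (NN m)} (hx : x ∈ cell (TriF σ j)) :
    thirdG x = third σ j x := by
  have h : ∃ z : Tp m × Fin m, x ∈ cell (TriF z.1 z.2) := ⟨(σ, j), hx⟩
  unfold thirdG
  rw [dif_pos h]
  exact third_compat h.choose_spec hx

theorem continuousOn_thirdG : ContinuousOn (thirdG : E (NN m) → ℝ) (CC m).carrier := by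
  rw [carrier_eq]
  apply (locallyFinite_of_finite _).continuousOn_iUnion
  · intro z
    exact isClosed_cell _
  · intro z
    apply ((continuous_third z.1 z.2).continuousOn).congr
    intro x hx
    exact thirdG_eq hx

/-- the map to `ℝ^3` -/
noncomputable def F3 (x : E (NN m)) : E 3 := WithLp.toLp 2 ![m1 x, m2 x, thirdG x]

theorem continuousOn_F3 : ContinuousOn (F3 : E (NN m) → E 3) (CC m).carrier := by
  unfold F3
  apply (PiLp.continuous_toLp 2 _).comp_continuousOn
  apply continuousOn_pi.2
  intro i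
  fin_cases i
  · exact continuous_m1.continuousOn
  · exact continuous_m2.continuousOn
  · exact continuousOn_thirdG

theorem injOn_F3 : Set.InjOn (F3 : E (NN m) → E 3) (CC m).carrier := by
  intro x hx y hy hxy
  rw [carrier_eq, Set.mem_iUnion] at hx hy
  obtain ⟨z, hx⟩ := hx
  obtain ⟨w, hy⟩ := hy
  have h1 := congrArg (fun v : E 3 => v 0) hxy
  have h2 := congrArg (fun v : E 3 => v 1) hxy
  have h3 := congrArg (fun v : E 3 => v 2) hxy
  simp only [F3, Matrix.cons_val_zero, Matrix.cons_val_one, Matrix.cons_val] at h1 h2 h3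
  rw [thirdG_eq hx, thirdG_eq hy] at h3
  exact third_injective hx hy h1 h2 h3

theorem isCompact_carrier : IsCompact (CC m).carrier := by
  rw [carrier_eq]
  exact isCompact_iUnion fun z => isCompact_cell _

theorem embeds_three : ∃ S : Set (E 3), Nonempty ((CC m).carrier ≃ₜ S) := by
  have : CompactSpace (CC m).carrier := isCompact_iff_compactSpace.1 isCompact_carrier
  let g : (CC m).carrier → E 3 := fun x => F3 (x : E (NN m))
  have hc : Continuous g := continuousOn_iff_continuous_domRestrict.1 continuousOn_F3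
  have hi : Function.Injective g := by
    intro x y h
    exact Subtype.ext (injOn_F3 x.2 y.2 h)
  have he : Topology.IsEmbedding g := (hc.isClosedEmbedding hi).isEmbedding
  exact ⟨Set.range g, ⟨he.toHomeomorph⟩⟩

end Pool.Agent.LinEmb
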