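import Pool.Agent.Lib.MP_c5a51c_co.Top3
import Pool.Agent.Lib.MP_249bfd_co.InvDom

/-!
The carrier does not embed in the plane.
-/

set_option autoImplicit false

namespace Pool.Agent.LinEmb

open Finset

variable {m n : ℕ}

theorem comb_mem {s : Finset (Fin n)} {i j k : Fin n} (hi : i ∈ s) (hj : j ∈ s) (hk : k ∈ s)
    {a b c : ℝ} (ha : 0 ≤ a) (hb : 0 ≤ b) (hc : 0 ≤ c) (habc : a + (b + c) = 1) :
    a • vtx i + (b • vtx j + c • vtx k) ∈ cell s := by
  have h0 : ∀ l, (a • vtx i + (b • vtx j + c • vtx k) : E n) l =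
      a * (if l = i then 1 else 0) + (b * (if l = j then 1 else 0) +
        c * (if l = k then 1 else 0)) := by
    intro l
    simp only [PiLp.add_apply, PiLp.smul_apply, smul_eq_mul, vtx_apply]
  refine ⟨fun l => ?_, ?_, fun l hl => ?_⟩
  · rw [h0]
    have h1 : (0 : ℝ) ≤ (if l = i then 1 else 0) := by split_ifs <;> norm_num
    have h2 : (0 : ℝ) ≤ (if l = j then 1 else 0) := by split_ifs <;> norm_num
    have h3 : (0 : ℝ) ≤ (if l = k then 1 else 0) := by split_ifs <;> norm_num
    positivity
  · rw [Finset.sum_congr rfl fun l _ => h0 l, Finset.sum_add_distrib, Finset.sum_add_distrib,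
      ← Finset.mul_sum, ← Finset.mul_sum, ← Finset.mul_sum]
    simp [habc]
  · rw [h0, if_neg, if_neg, if_neg]
    · ring
    · rintro rfl
      exact hl hk
    · rintro rfl
      exact hl hj
    · rintro rfl
      exact hl hi

theorem cell_sub_carrier (σ : Tp m) (j : Fin m) : cell (TriF σ j) ⊆ (CC m).carrier := by
  rw [carrier_eq]
  exact Set.subset_iUnion (fun z : Tp m × Fin m => cell (TriF z.1 z.2)) (σ, j)

/-- three different top vertices with the same pair in some group -/
theorem exists_book (hm : 2 ≤ m) : ∃ (j : Fin m) (σ τ ρ : Tp m), σ ≠ τ ∧ σ ≠ ρ ∧ τ ≠ ρ ∧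
    σ j = τ j ∧ σ j = ρ j := by
  let j0 : Fin m := ⟨0, by omega⟩
  let j1 : Fin m := ⟨1, by omega⟩
  have hj : j1 ≠ j0 := by
    intro h
    have := congrArg Fin.val h
    simp [j0, j1] at this
  let p : P5 := ⟨(0, 1), by decide⟩
  let q : P5 := ⟨(0, 2), by decide⟩
  let r : P5 := ⟨(0, 3), by decide⟩
  have hpq : p ≠ q := by decide
  have hpr : p ≠ r := by decide
  have hqr : q ≠ r := by decide
  refine ⟨j0, fun _ => p, fun j => if j = j0 then p else q, fun j => if j = j0 then p else r,
    ?_, ?_, ?_, ?_, ?_⟩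
  · intro h
    have := congrFun h j1
    simp only [hj, if_false] at this
    exact hpq this
  · intro h
    have := congrFun h j1
    simp only [hj, if_false] at this
    exact hpr this
  · intro h
    have := congrFun h j1
    simp only [hj, if_false] at this
    exact hqr this
  · simp
  · simp

/-- the plane embeds the small Euclidean spaces -/
def toC (k : ℕ) (x : E k) : ℂ :=
  ⟨if h : 0 < k then x ⟨0, h⟩ else 0, if h : 1 < k then x ⟨1, h⟩ else 0⟩

theorem toC_injective {k : ℕ} (hk : k ≤ 2) : Function.Injective (toC k) := by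
  intro x y h
  ext i
  have h1 := congrArg Complex.re h
  have h2 := congrArg Complex.im h
  simp only [toC] at h1 h2
  have hi := i.2
  have hcase : (i : ℕ) = 0 ∨ (i : ℕ) = 1 := by omega
  rcases hcase with h0 | h0
  · have hk0 : 0 < k := by omega
    rw [dif_pos hk0, dif_pos hk0] at h1
    have : i = ⟨0, hk0⟩ := Fin.ext h0
    rw [this]
    exact h1
  · have hk0 : 1 < k := by omega
    rw [dif_pos hk0, dif_pos hk0] at h2
    have : i = ⟨1, hk0⟩ := Fin.ext h0
    rw [this]
    exact h2

theorem continuous_toC (k : ℕ) : Continuous (toC k) := by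
  have h1 : Continuous (fun x : E k => if h : 0 < k then x ⟨0, h⟩ else (0 : ℝ)) := by
    by_cases h : 0 < k
    · simp only [h, dite_true]
      fun_prop
    · simp only [h, dite_false]
      exact continuous_const
  have h2 : Continuous (fun x : E k => if h : 1 < k then x ⟨1, h⟩ else (0 : ℝ)) := by
    by_cases h : 1 < k
    · simp only [h, dite_true]
      fun_prop
    · simp only [h, dite_false]
      exact continuous_const
  have h3 : (toC k) = fun x => (((if h : 0 < k then x ⟨0, h⟩ else (0 : ℝ)) : ℝ) : ℂ) +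
      (((if h : 1 < k then x ⟨1, h⟩ else (0 : ℝ)) : ℝ) : ℂ) * Complex.I := by
    funext x
    apply Complex.ext <;> simp [toC]
  rw [h3]
  exact (Complex.continuous_ofReal.comp h1).add
    ((Complex.continuous_ofReal.comp h2).mul continuous_const)

theorem not_plane (hm : 2 ≤ m) {k : ℕ} (hk : k ≤ 2) (S : Set (E k))
    (h : (CC m).carrier ≃ₜ S) : False := by
  obtain ⟨j, σ, τ, ρ, hστ, hσρ, hτρ, hj1, hj2⟩ := exists_book hm
  obtain ⟨a, ha⟩ : ∃ a, a = iA σ j := ⟨_, rfl⟩
  obtain ⟨b, hb⟩ : ∃ b, b = iB σ j := ⟨_, rfl⟩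
  obtain ⟨v1, hv1⟩ : ∃ v, v = iV σ := ⟨_, rfl⟩
  obtain ⟨v2, hv2⟩ : ∃ v, v = iV τ := ⟨_, rfl⟩
  obtain ⟨v3, hv3⟩ : ∃ v, v = iV ρ := ⟨_, rfl⟩
  have T1 : TriF σ j = {v1, a, b} := by rw [TriF_eq, ha, hb, hv1]
  have T2 : TriF τ j = {v2, a, b} := by
    rw [TriF_eq, ha, hb, hv2]
    unfold iA iB
    rw [hj1]
  have T3 : TriF ρ j = {v3, a, b} := by
    rw [TriF_eq, ha, hb, hv3]
    unfold iA iB
    rw [hj2]
  have hab : a ≠ b := by rw [ha, hb]; exact iA_ne_iB σ j
  have h1a : v1 ≠ a := by rw [hv1, ha]; exact iV_ne_iA _ _ _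
  have h1b : v1 ≠ b := by rw [hv1, hb]; exact iV_ne_iB _ _ _
  have h2a : v2 ≠ a := by rw [hv2, ha]; exact iV_ne_iA _ _ _
  have h2b : v2 ≠ b := by rw [hv2, hb]; exact iV_ne_iB _ _ _
  have h3a : v3 ≠ a := by rw [hv3, ha]; exact iV_ne_iA _ _ _
  have h3b : v3 ≠ b := by rw [hv3, hb]; exact iV_ne_iB _ _ _
  have h12 : v1 ≠ v2 := by rw [hv1, hv2, Ne, iV_eq_iff]; exact hστ
  have h13 : v1 ≠ v3 := by rw [hv1, hv3, Ne, iV_eq_iff]; exact hσρ
  have h23 : v2 ≠ v3 := by rw [hv2, hv3, Ne, iV_eq_iff]; exact hτρ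
  -- the two pages
  let P : ℂ → E (NN m) := fun z => ((1 / 2 + z.re - |z.im| / 2) • vtx a +
    (1 / 2 - z.re - |z.im| / 2) • vtx b) + ((max z.im 0) • vtx v1 + (max (-z.im) 0) • vtx v2)
  have hPc : Continuous P := by
    have e1 : Continuous (fun z : ℂ => 1 / 2 + z.re - |z.im| / 2) := by fun_prop
    have e2 : Continuous (fun z : ℂ => 1 / 2 - z.re - |z.im| / 2) := by fun_prop
    have e3 : Continuous (fun z : ℂ => max z.im 0) := by fun_prop
    have e4 : Continuous (fun z : ℂ => max (-z.im) 0) := by fun_prop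
    exact ((e1.smul continuous_const).add (e2.smul continuous_const)).add
      ((e3.smul continuous_const).add (e4.smul continuous_const))
  let U : Set ℂ := {z | |z.re| < 1 / 4 ∧ |z.im| < 1 / 4}
  have hU : IsOpen U := by
    have e1 : IsOpen {z : ℂ | |z.re| < 1 / 4} :=
      isOpen_lt (by fun_prop) continuous_const
    have e2 : IsOpen {z : ℂ | |z.im| < 1 / 4} :=
      isOpen_lt (by fun_prop) continuous_const
    exact e1.inter e2
  have hPval : ∀ z l, P z l = ((1 / 2 + z.re - |z.im| / 2) * (if l = a then 1 else 0) +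
      (1 / 2 - z.re - |z.im| / 2) * (if l = b then 1 else 0)) +
      ((max z.im 0) * (if l = v1 then 1 else 0) + (max (-z.im) 0) * (if l = v2 then 1 else 0)) := by
    intro z l
    simp only [P, PiLp.add_apply, PiLp.smul_apply, smul_eq_mul, vtx_apply]
  have hPmem : ∀ z ∈ U, P z ∈ (CC m).carrier := by
    rintro z ⟨hz1, hz2⟩
    have e1 := abs_lt.1 hz1
    have e2 := abs_nonneg z.im
    rcases le_total 0 z.im with hy | hy
    · apply cell_sub_carrier σ j
      have e3 : P z = (max z.im 0) • vtx v1 + ((1 / 2 + z.re - |z.im| / 2) • vtx a +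
          (1 / 2 - z.re - |z.im| / 2) • vtx b) := by
        simp only [P]
        rw [max_eq_right (by linarith : -z.im ≤ 0), zero_smul, add_zero, add_comm]
      rw [e3, T1]
      apply comb_mem (by simp) (by simp) (by simp)
      · exact le_max_right _ _
      · linarith [e1.1]
      · linarith [e1.2]
      · rw [max_eq_left hy, abs_of_nonneg hy]
        ring
    · apply cell_sub_carrier τ j
      have e3 : P z = (max (-z.im) 0) • vtx v2 + ((1 / 2 + z.re - |z.im| / 2) • vtx a +
          (1 / 2 - z.re - |z.im| / 2) • vtx b) := by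
        simp only [P]
        rw [max_eq_right hy, zero_smul, zero_add, add_comm]
      rw [e3, T2]
      apply comb_mem (by simp) (by simp) (by simp)
      · exact le_max_right _ _
      · linarith [e1.1]
      · linarith [e1.2]
      · rw [max_eq_left (by linarith : 0 ≤ -z.im), abs_of_nonpos hy]
        ring
  have hPinj : ∀ z ∈ U, ∀ w ∈ U, P z = P w → z = w := by
    intro z _ w _ hzw
    have c1 := congrArg (fun x : E (NN m) => x v1) hzw
    have c2 := congrArg (fun x : E (NN m) => x v2) hzw
    have c3 := congrArg (fun x : E (NN m) => x a) hzw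
    simp only [hPval, h1a, h1b, h12, h2a, h2b, h12.symm, h1a.symm, h2a.symm, hab, if_true,
      if_false, mul_zero, mul_one, zero_add, add_zero] at c1 c2 c3
    have him : z.im = w.im := by
      have e1 : ∀ y : ℝ, max y 0 - max (-y) 0 = y := by
        intro y
        rcases le_total 0 y with hy | hy
        · rw [max_eq_left hy, max_eq_right (by linarith : -y ≤ 0), sub_zero]
        · rw [max_eq_right hy, max_eq_left (by linarith : 0 ≤ -y)]
          ring
      rw [← e1 z.im, ← e1 w.im, c1, c2]
    apply Complex.ext _ him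
    rw [him] at c3
    linarith
  classical
  let g : ℂ → ℂ := fun z => if hz : P z ∈ (CC m).carrier then
    toC k ((h ⟨P z, hz⟩ : S) : E k) else 0
  have hgval : ∀ z (hz : z ∈ U), g z = toC k ((h ⟨P z, hPmem z hz⟩ : S) : E k) := by
    intro z hz
    simp only [g]
    rw [dif_pos (hPmem z hz)]
  have hgc : ContinuousOn g U := by
    rw [continuousOn_iff_continuous_domRestrict]
    have e1 : U.domRestrict g = fun z : U => toC k ((h ⟨P z, hPmem z z.2⟩ : S) : E k) := by
      funext z
      exact hgval z z.2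
    rw [e1]
    apply (continuous_toC k).comp
    apply continuous_subtype_val.comp
    apply h.continuous.comp
    exact (hPc.comp continuous_subtype_val).subtype_mk _
  have hinj : ∀ x y : (CC m).carrier, toC k ((h x : S) : E k) = toC k ((h y : S) : E k) →
      x = y := by
    intro x y hxy
    exact h.injective (Subtype.ext (toC_injective hk hxy))
  have hgi : Set.InjOn g U := by
    intro z hz w hw hzw
    rw [hgval z hz, hgval w hw] at hzw
    have := congrArg Subtype.val (hinj _ _ hzw)
    exact hPinj z hz w hw this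
  have hopen := Pool.Agent.MP249bfd.isOpen_image_plane U hU g hgc hgi
  -- the third page
  let Q : ℝ → E (NN m) := fun t => t • vtx v3 + (((1 - t) / 2) • vtx a + ((1 - t) / 2) • vtx b)
  have hQc : Continuous Q := by
    have e1 : Continuous (fun t : ℝ => (1 - t) / 2) := by fun_prop
    exact (continuous_id.smul continuous_const).add
      ((e1.smul continuous_const).add (e1.smul continuous_const))
  have hQmem : ∀ t : Set.Icc (0 : ℝ) 1, Q t ∈ (CC m).carrier := by
    rintro ⟨t, ht0, ht1⟩
    apply cell_sub_carrier ρ j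
    rw [T3]
    apply comb_mem (by simp) (by simp) (by simp) ht0
    · simp only; linarith
    · simp only; linarith
    · simp only; ring
  let G : Set.Icc (0 : ℝ) 1 → ℂ := fun t => toC k ((h ⟨Q t, hQmem t⟩ : S) : E k)
  have hGc : Continuous G := by
    apply (continuous_toC k).comp
    apply continuous_subtype_val.comp
    apply h.continuous.comp
    exact (hQc.comp continuous_subtype_val).subtype_mk _
  have h0U : (0 : ℂ) ∈ U := by
    constructor <;> norm_num
  have hPQ : P 0 = Q 0 := by
    simp only [P, Q]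
    simp
  let t0 : Set.Icc (0 : ℝ) 1 := ⟨0, by norm_num⟩
  have hG0 : G t0 = g 0 := by
    rw [hgval 0 h0U]
    simp only [G]
    congr 4
    exact hPQ.symm
  have hpre : IsOpen (G ⁻¹' (g '' U)) := hopen.preimage hGc
  have ht0 : t0 ∈ G ⁻¹' (g '' U) := by
    rw [Set.mem_preimage, hG0]
    exact ⟨0, h0U, rfl⟩
  obtain ⟨δ, hδ, hball⟩ := Metric.isOpen_iff.1 hpre t0 ht0
  have ht : min (δ / 2) 1 ∈ Set.Icc (0 : ℝ) 1 := by
    constructor
    · exact le_min (by linarith) (by norm_num)
    · exact min_le_right _ _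
  have htpos : 0 < min (δ / 2) 1 := lt_min (by linarith) (by norm_num)
  have htb : (⟨min (δ / 2) 1, ht⟩ : Set.Icc (0 : ℝ) 1) ∈ Metric.ball t0 δ := by
    rw [Metric.mem_ball, Subtype.dist_eq, Real.dist_eq]
    simp only [t0, sub_zero]
    rw [abs_of_pos htpos]
    exact lt_of_le_of_lt (min_le_left _ _) (by linarith)
  obtain ⟨z, hz, hzt⟩ := hball htb
  rw [hgval z hz] at hzt
  have heq := congrArg Subtype.val (hinj _ _ hzt)
  simp only at heq
  have hc := congrArg (fun x : E (NN m) => x v3) heq
  simp only [hPval, h3a, h3b, h13.symm, h23.symm, if_false, mul_zero, add_zero, Q,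
    PiLp.add_apply, PiLp.smul_apply, smul_eq_mul, vtx_apply, if_true, mul_one] at hc
  linarith

end Pool.Agent.LinEmb
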